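import Mathlib
import Pool.Agent.TH170.CM.Defs

/-!
# CM fields of degree `2 p ^ k`, and the change of types
-/

set_option autoImplicit false

namespace Pool.Agent.Q29.EP

open NumberField Module

/-- The degree of `E` is `2 p ^ k` with a prime number `p`; if `p` is odd then not all weights `M`
are divisible by `p`; and if `p = 2` then `p ^ k ≥ 8` and all weights are odd. -/
def PrimePowerDegree {E : Type} [Field E] [NumberField E] (M : (E →+* ℂ) → ℤ) : Prop :=
  ∃ p k : ℕ, p.Prime ∧ finrank ℚ E = 2 * p ^ k ∧ (∃ φ, ¬ (p : ℤ) ∣ M φ) ∧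
    (p = 2 → 8 ≤ p ^ k ∧ ∀ φ, Odd (M φ))

open Classical in
/-- The family of types `Φ`, changed on the sets `B i` for all `i` in `J`. -/
noncomputable def change {ι : Type} {E : ι → Type} [∀ i, Field (E i)]
    (B Φ : ∀ i, Set (E i →+* ℂ)) (J : Set ι) (i : ι) : Set (E i →+* ℂ) :=
  if i ∈ J then symmDiff (Φ i) (B i) else Φ i

end Pool.Agent.Q29.EP
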