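import Mathlib
import Pool.Agent.Q29.DP.Lat

/-!
# Vectors fixed by a 2-group modulo a stable subgroup
-/

set_option autoImplicit false

namespace Pool.Agent.Q29.EP

open MulAction

section

variable {Y : Type*} [Finite Y] {S : Type*} [Group S] [MulAction S Y]

/-- The action of a group element on the functions of a stable group. -/
def act (V : AddSubgroup (Y → ZMod 2))
    (hst : ∀ (s : S) (v : Y → ZMod 2), v ∈ V → (fun y => v (s • y)) ∈ V) (s : S) : V →+ V where
  toFun n := ⟨fun y => n.1 (s⁻¹ • y), hst s⁻¹ n.1 n.2⟩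
  map_zero' := rfl
  map_add' _ _ := rfl

/-- A stable group `V` of functions with values modulo two which is not contained in the stable
subgroup `W` contains a function, not in `W`, which is fixed modulo `W` by a 2-group. -/
theorem exists_fixed_quot [Finite S] (hS : IsPGroup 2 S) (V W : AddSubgroup (Y → ZMod 2))
    (hV : ∀ (s : S) (v : Y → ZMod 2), v ∈ V → (fun y => v (s • y)) ∈ V)
    (hW : ∀ (s : S) (v : Y → ZMod 2), v ∈ W → (fun y => v (s • y)) ∈ W)
    (hne : ∃ v ∈ V, v ∉ W) :
    ∃ v ∈ V, v ∉ W ∧ ∀ s : S, (fun y => v (s • y) + v y) ∈ W := by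
  classical
  have _ : Fintype Y := Fintype.ofFinite Y
  let N : AddSubgroup V := W.addSubgroupOf V
  have hN : ∀ x : V, x ∈ N ↔ x.1 ∈ W := fun x => Iff.rfl
  have hact : ∀ s : S, N ≤ N.comap (act V hV s) := by
    intro s x hx
    exact (hN _).2 (hW s⁻¹ x.1 ((hN x).1 hx))
  let A : MulAction S (V ⧸ N) :=
    { smul := fun s x => QuotientAddGroup.map N N (act V hV s) (hact s) x
      one_smul := by
        intro x
        obtain ⟨x, rfl⟩ := QuotientAddGroup.mk_surjective x
        change QuotientAddGroup.map N N (act V hV 1) (hact 1) (x : V ⧸ N) = _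
        rw [QuotientAddGroup.map_mk]
        congr 1
        apply Subtype.ext
        funext y
        change x.1 ((1 : S)⁻¹ • y) = x.1 y
        rw [inv_one, one_smul]
      mul_smul := by
        intro s t x
        obtain ⟨x, rfl⟩ := QuotientAddGroup.mk_surjective x
        change QuotientAddGroup.map N N (act V hV (s * t)) (hact (s * t)) (x : V ⧸ N) =
          QuotientAddGroup.map N N (act V hV s) (hact s)
            (QuotientAddGroup.map N N (act V hV t) (hact t) (x : V ⧸ N))
        rw [QuotientAddGroup.map_mk, QuotientAddGroup.map_mk, QuotientAddGroup.map_mk]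
        congr 1
        apply Subtype.ext
        funext y
        change x.1 ((s * t)⁻¹ • y) = x.1 (t⁻¹ • s⁻¹ • y)
        rw [mul_inv_rev, mul_smul] }
  obtain ⟨v₀, hv₀, hv₀'⟩ := hne
  have hfinV : Finite V := inferInstance
  have hfin : Finite (V ⧸ N) := inferInstance
  have hx0 : ((⟨v₀, hv₀⟩ : V) : V ⧸ N) ≠ 0 := by
    intro h
    exact hv₀' ((hN _).1 ((QuotientAddGroup.eq_zero_iff _).1 h))
  have h2 : ∀ x : V ⧸ N, 2 • x = 0 := by
    intro x
    obtain ⟨x, rfl⟩ := QuotientAddGroup.mk_surjective x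
    rw [← QuotientAddGroup.mk_nsmul]
    refine (QuotientAddGroup.eq_zero_iff _).2 ((hN _).2 ?_)
    have h3 : ((2 • x : V) : Y → ZMod 2) = 0 := by
      funext y
      change (2 • x.1) y = 0
      rw [Pi.smul_apply, nsmul_eq_mul]
      have h4 : ((2 : ℕ) : ZMod 2) = 0 := by decide
      rw [h4, zero_mul]
    rw [h3]
    exact W.zero_mem
  have hcard : 2 ∣ Nat.card (V ⧸ N) := by
    have h1 : addOrderOf ((⟨v₀, hv₀⟩ : V) : V ⧸ N) = 2 := addOrderOf_eq_prime (h2 _) hx0
    have h3 := addOrderOf_dvd_natCard ((⟨v₀, hv₀⟩ : V) : V ⧸ N)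
    rwa [h1] at h3
  obtain ⟨x, hx, hx'⟩ := hS.exists_fixed_point_of_prime_dvd_card_of_fixed_point (V ⧸ N) hcard
    (a := 0) (by
      intro s
      exact map_zero (QuotientAddGroup.map N N (act V hV s) (hact s)))
  obtain ⟨n, rfl⟩ := QuotientAddGroup.mk_surjective x
  refine ⟨n.1, n.2, ?_, ?_⟩
  · intro h
    apply hx'
    symm
    exact (QuotientAddGroup.eq_zero_iff _).2 ((hN _).2 h)
  · intro s
    have h1 : QuotientAddGroup.map N N (act V hV s⁻¹) (hact s⁻¹) (n : V ⧸ N) = (n : V ⧸ N) :=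
      hx s⁻¹
    rw [QuotientAddGroup.map_mk] at h1
    have h3 := (QuotientAddGroup.eq (s := N)).1 h1.symm
    have h4 := (hN _).1 h3
    convert h4 using 1
    funext y
    change n.1 (s • y) + n.1 y = -(n.1 y) + n.1 (s⁻¹⁻¹ • y)
    rw [inv_inv, ZMod.neg_eq_self_mod_two, add_comm]

/-- A nonzero group of functions with values modulo two which is stable under a 2-group contains a
nonzero function fixed by the 2-group. -/
theorem exists_fixed [Finite S] (hS : IsPGroup 2 S) (V : AddSubgroup (Y → ZMod 2))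
    (hV : ∀ (s : S) (v : Y → ZMod 2), v ∈ V → (fun y => v (s • y)) ∈ V)
    (hne : ∃ v ∈ V, v ≠ 0) : ∃ v ∈ V, v ≠ 0 ∧ ∀ (s : S) (y : Y), v (s • y) = v y := by
  obtain ⟨v, hv, hv0, hfix⟩ := exists_fixed_quot hS V ⊥ hV (by
    intro s v hv
    rw [AddSubgroup.mem_bot] at hv ⊢
    rw [hv]
    rfl) (by
    obtain ⟨v, hv, h⟩ := hne
    exact ⟨v, hv, fun h1 => h ((AddSubgroup.mem_bot).1 h1)⟩)
  refine ⟨v, hv, fun h => hv0 (by rw [h]; exact AddSubgroup.zero_mem _), fun s y => ?_⟩
  have h1 := congrFun ((AddSubgroup.mem_bot).1 (hfix s)) y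
  have h2 : v (s • y) + v y = 0 := h1
  have h3 := eq_neg_of_add_eq_zero_left h2
  rwa [ZMod.neg_eq_self_mod_two] at h3

end

end Pool.Agent.Q29.EP
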