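import Mathlib
import Pool.Agent.Q29.DP.Core
import Pool.Agent.Q29.EP.Fix

/-!
# The lattice of the relations and the lattice orthogonal to it, modulo two
-/

set_option autoImplicit false
set_option linter.unusedSectionVars false

namespace Pool.Agent.Q29.EP

open MulAction Finset Pool.Agent.Q29.DP

/-- An involution commuting with a group action, and a half system. -/
structure HalfSystem (P : Type*) [Group P] {Y : Type*} [MulAction P Y] (inv : Y → Y)
    (O : Finset Y) : Prop where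
  invol : ∀ y, inv (inv y) = y
  comm : ∀ (g : P) (y : Y), g • inv y = inv (g • y)
  half : ∀ y, y ∈ O ↔ inv y ∉ O

theorem two_cases (a : ZMod 2) : a = 0 ∨ a = 1 := by
  revert a
  decide

theorem add_self' (a : ZMod 2) : a + a = 0 := CharTwo.add_self_eq_zero a

theorem eq_of_add {a b : ZMod 2} (h : a + b = 0) : a = b := by
  revert a b
  decide

theorem val_cast (a : ZMod 2) : (((a.val : ℕ) : ℤ) : ZMod 2) = a := by
  revert a
  decide

section

variable {P : Type*} [Group P] {Y : Type*} [Fintype Y] [DecidableEq Y] [MulAction P Y]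
  {inv : Y → Y} {O : Finset Y}

theorem HalfSystem.sum_int (H : HalfSystem P inv O) (F : Y → ℤ) (hF : ∀ y, F (inv y) = F y)
    (g : P) : ∑ y ∈ O, F (g • y) = ∑ y ∈ O, F y := by
  have h1 := sum_half inv H.invol O H.half F hF
  have h2 := sum_half inv H.invol O H.half (fun y => F (g • y)) (fun y => by
    rw [H.comm, hF])
  have h3 : ∑ y, F (g • y) = ∑ y, F y :=
    Fintype.sum_equiv (MulAction.toPerm g) _ _ fun y => rfl
  rw [h1, h2] at h3
  exact mul_left_cancel₀ two_ne_zero h3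

theorem HalfSystem.sum_smul (H : HalfSystem P inv O) (f : Y → ZMod 2)
    (hf : ∀ y, f (inv y) = f y) (g : P) : ∑ y ∈ O, f (g • y) = ∑ y ∈ O, f y := by
  have h1 := H.sum_int (fun y => ((f y).val : ℤ)) (fun y => by rw [hf]) g
  have h2 := congrArg (fun a : ℤ => (a : ZMod 2)) h1
  simp only [Int.cast_sum, val_cast] at h2
  exact h2

/-- The lattice of the relations between the translates of `e`. -/
def rel (P : Type*) [Group P] {Y : Type*} [Fintype Y] [MulAction P Y] (inv : Y → Y)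
    (e : Y → ℤ) : AddSubgroup (Y → ℤ) where
  carrier := {n | (∀ y, n (inv y) = -n y) ∧ ∀ g : P, ∑ y, n y * e (g • y) = 0}
  zero_mem' := by
    refine ⟨fun y => ?_, fun g => ?_⟩ <;> simp
  add_mem' := by
    rintro a b ⟨ha1, ha2⟩ ⟨hb1, hb2⟩
    refine ⟨fun y => ?_, fun g => ?_⟩
    · simp only [Pi.add_apply, ha1, hb1]
      ring
    · simp only [Pi.add_apply, add_mul, sum_add_distrib, ha2, hb2, add_zero]
  neg_mem' := by
    rintro a ⟨ha1, ha2⟩
    refine ⟨fun y => ?_, fun g => ?_⟩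
    · simp only [Pi.neg_apply, ha1]
    · simp only [Pi.neg_apply, neg_mul, sum_neg_distrib, ha2, neg_zero]

theorem mem_rel {e n : Y → ℤ} : n ∈ rel P inv e ↔
    (∀ y, n (inv y) = -n y) ∧ ∀ g : P, ∑ y, n y * e (g • y) = 0 := Iff.rfl

/-- The lattice orthogonal to all relations. -/
def spa (P : Type*) [Group P] {Y : Type*} [Fintype Y] [MulAction P Y] (inv : Y → Y)
    (e : Y → ℤ) : AddSubgroup (Y → ℤ) where
  carrier := {w | (∀ y, w (inv y) = -w y) ∧ ∀ n ∈ rel P inv e, ∑ y, n y * w y = 0}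
  zero_mem' := by
    refine ⟨fun y => ?_, fun n _ => ?_⟩ <;> simp
  add_mem' := by
    rintro a b ⟨ha1, ha2⟩ ⟨hb1, hb2⟩
    refine ⟨fun y => ?_, fun n hn => ?_⟩
    · simp only [Pi.add_apply, ha1, hb1]
      ring
    · simp only [Pi.add_apply, mul_add, sum_add_distrib, ha2 n hn, hb2 n hn, add_zero]
  neg_mem' := by
    rintro a ⟨ha1, ha2⟩
    refine ⟨fun y => ?_, fun n hn => ?_⟩
    · simp only [Pi.neg_apply, ha1]
    · simp only [Pi.neg_apply, mul_neg, sum_neg_distrib, ha2 n hn, neg_zero]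

theorem mem_spa {e w : Y → ℤ} : w ∈ spa P inv e ↔
    (∀ y, w (inv y) = -w y) ∧ ∀ n ∈ rel P inv e, ∑ y, n y * w y = 0 := Iff.rfl

/-- A lattice of antisymmetric functions which is stable and saturated at two. -/
structure IsStable (P : Type*) [Group P] {Y : Type*} [MulAction P Y] (inv : Y → Y)
    (Λ : AddSubgroup (Y → ℤ)) : Prop where
  anti : ∀ n ∈ Λ, ∀ y, n (inv y) = -n y
  smul : ∀ n ∈ Λ, ∀ g : P, (fun y => n (g • y)) ∈ Λ
  half : ∀ m : Y → ℤ, (fun y => 2 * m y) ∈ Λ → m ∈ Λ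

theorem isStable_rel (H : HalfSystem P inv O) (e : Y → ℤ) : IsStable P inv (rel P inv e) where
  anti n hn := hn.1
  smul n hn g := by
    refine ⟨fun y => ?_, fun h => ?_⟩
    · change n (g • inv y) = -n (g • y)
      rw [H.comm, hn.1]
    · rw [← hn.2 (h * g⁻¹)]
      refine Fintype.sum_equiv (MulAction.toPerm g) _ _ fun y => ?_
      simp only [MulAction.toPerm_apply, mul_smul, inv_smul_smul]
  half m hm := by
    refine ⟨fun y => ?_, fun g => ?_⟩
    · have h1 := hm.1 y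
      linarith
    · have h1 := hm.2 g
      have h2 : ∑ y, 2 * m y * e (g • y) = 2 * ∑ y, m y * e (g • y) := by
        rw [mul_sum]
        exact sum_congr rfl fun y _ => by ring
      rw [h2] at h1
      exact (mul_eq_zero.1 h1).resolve_left two_ne_zero

theorem isStable_spa (H : HalfSystem P inv O) (e : Y → ℤ) : IsStable P inv (spa P inv e) where
  anti n hn := hn.1
  smul w hw g := by
    refine ⟨fun y => ?_, fun n hn => ?_⟩
    · change w (g • inv y) = -w (g • y)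
      rw [H.comm, hw.1]
    · rw [← hw.2 _ ((isStable_rel H e).smul n hn g⁻¹)]
      refine Fintype.sum_equiv (MulAction.toPerm g) _ _ fun y => ?_
      simp only [MulAction.toPerm_apply, inv_smul_smul]
  half m hm := by
    refine ⟨fun y => ?_, fun n hn => ?_⟩
    · have h1 := hm.1 y
      linarith
    · have h1 := hm.2 n hn
      have h2 : ∑ y, n y * (2 * m y) = 2 * ∑ y, n y * m y := by
        rw [mul_sum]
        exact sum_congr rfl fun y _ => by ring
      rw [h2] at h1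
      exact (mul_eq_zero.1 h1).resolve_left two_ne_zero

theorem self_mem_spa {e : Y → ℤ} (he : ∀ y, e (inv y) = -e y) : e ∈ spa P inv e := by
  refine ⟨he, fun n hn => ?_⟩
  have h1 := hn.2 1
  simp only [one_smul] at h1
  exact h1

/-- The reduction modulo two. -/
def bar (Λ : AddSubgroup (Y → ℤ)) : AddSubgroup (Y → ZMod 2) :=
  Λ.map ((Int.castAddHom (ZMod 2)).compLeft Y)

theorem mem_bar {Λ : AddSubgroup (Y → ℤ)} {v : Y → ZMod 2} :
    v ∈ bar Λ ↔ ∃ n ∈ Λ, ∀ y, ((n y : ℤ) : ZMod 2) = v y := by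
  unfold bar
  rw [AddSubgroup.mem_map]
  constructor
  · rintro ⟨n, hn, rfl⟩
    exact ⟨n, hn, fun y => rfl⟩
  · rintro ⟨n, hn, h⟩
    exact ⟨n, hn, funext h⟩

theorem IsStable.bar_smul {Λ : AddSubgroup (Y → ℤ)} (h : IsStable P inv Λ) (g : P)
    (v : Y → ZMod 2) (hv : v ∈ bar Λ) : (fun y => v (g • y)) ∈ bar Λ := by
  obtain ⟨n, hn, h1⟩ := mem_bar.1 hv
  exact mem_bar.2 ⟨_, h.smul n hn g, fun y => h1 _⟩

theorem IsStable.bar_inv {Λ : AddSubgroup (Y → ℤ)} (h : IsStable P inv Λ) (v : Y → ZMod 2)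
    (hv : v ∈ bar Λ) (y : Y) : v (inv y) = v y := by
  obtain ⟨n, hn, h1⟩ := mem_bar.1 hv
  rw [← h1, ← h1, h.anti n hn, Int.cast_neg, ZMod.neg_eq_self_mod_two]

/-- Relations and the functions orthogonal to them are orthogonal modulo two on a half system. -/
theorem orth (H : HalfSystem P inv O) {e : Y → ℤ} {u v : Y → ZMod 2}
    (hu : u ∈ bar (rel P inv e)) (hv : v ∈ bar (spa P inv e)) : ∑ y ∈ O, u y * v y = 0 := by
  obtain ⟨n, hn, hnu⟩ := mem_bar.1 hu
  obtain ⟨w, hw, hwv⟩ := mem_bar.1 hv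
  have h1 := hw.2 n hn
  rw [sum_half inv H.invol O H.half (fun y => n y * w y) (fun y => by
    rw [hn.1, hw.1]
    ring)] at h1
  have h2 := (mul_eq_zero.1 h1).resolve_left two_ne_zero
  have h3 := congrArg (fun a : ℤ => (a : ZMod 2)) h2
  simp only [Int.cast_sum, Int.cast_mul, hnu, hwv, Int.cast_zero] at h3
  exact h3

/-- The second binary digit. -/
def dig (w : Y → ℤ) (y : Y) : ZMod 2 := ((w y / 2 : ℤ) : ZMod 2)

theorem dig_eq (a : ℤ) : a = 2 * (a / 2) + ((a : ZMod 2).val : ℤ) := by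
  have h1 : ((a : ZMod 2).val : ℤ) = a % 2 := by
    rw [ZMod.val_intCast]
    rfl
  rw [h1]
  omega

theorem cast_even {a : ℤ} (h : (2 : ℤ) ∣ a) : (a : ZMod 2) = 0 :=
  (ZMod.intCast_zmod_eq_zero_iff_dvd a 2).2 h

theorem even_of_cast {a : ℤ} (h : (a : ZMod 2) = 0) : (2 : ℤ) ∣ a :=
  (ZMod.intCast_zmod_eq_zero_iff_dvd a 2).1 h

theorem cast_odd {a : ℤ} (h : ¬ (2 : ℤ) ∣ a) : (a : ZMod 2) = 1 :=
  (two_cases _).resolve_left fun h1 => h (even_of_cast h1)

theorem not_even_of_cast {a : ℤ} (h : (a : ZMod 2) = 1) : ¬ (2 : ℤ) ∣ a := by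
  intro h1
  rw [cast_even h1] at h
  exact zero_ne_one h

theorem dig_neg (a : ℤ) : (((-a) / 2 : ℤ) : ZMod 2) = ((a / 2 : ℤ) : ZMod 2) + (a : ZMod 2) := by
  by_cases h : (2 : ℤ) ∣ a
  · rw [cast_even h, add_zero]
    have h1 : (-a) / 2 = -(a / 2) := by omega
    rw [h1, Int.cast_neg, ZMod.neg_eq_self_mod_two]
  · rw [cast_odd h]
    have h1 : (-a) / 2 = -(a / 2) - 1 := by omega
    rw [h1]
    push_cast
    rw [ZMod.neg_eq_self_mod_two, sub_eq_add_neg, ZMod.neg_eq_self_mod_two]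

theorem dig_inv {w : Y → ℤ} (hw : ∀ y, w (inv y) = -w y) (y : Y) :
    dig w (inv y) = dig w y + ((w y : ℤ) : ZMod 2) := by
  unfold dig
  rw [hw, dig_neg]

/-- The digits of one half of a difference. -/
theorem half_diff {a b : ℤ} (h : ((a : ℤ) : ZMod 2) = ((b : ℤ) : ZMod 2)) :
    ∃ m : ℤ, a - b = 2 * m ∧ (m : ZMod 2) = ((a / 2 : ℤ) : ZMod 2) + ((b / 2 : ℤ) : ZMod 2) := by
  have h1 := dig_eq a
  have h2 := dig_eq b
  rw [h] at h1
  refine ⟨a / 2 - b / 2, by omega, ?_⟩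
  push_cast
  rw [sub_eq_add_neg, ZMod.neg_eq_self_mod_two]

theorem IsStable.dig_mem {Λ : AddSubgroup (Y → ℤ)} (h : IsStable P inv Λ) {w : Y → ℤ}
    (hw : w ∈ Λ) (g : P) (hg : ∀ y, ((w (g • y) : ℤ) : ZMod 2) = ((w y : ℤ) : ZMod 2)) :
    ∃ m ∈ Λ, ∀ y, ((m y : ℤ) : ZMod 2) = dig w (g • y) + dig w y := by
  choose m hm hm2 using fun y => half_diff (hg y)
  refine ⟨m, h.half m ?_, hm2⟩
  have h1 : (fun y => 2 * m y) = (fun y => w (g • y)) - w := by
    funext y
    exact (hm y).symm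
  rw [h1]
  exact Λ.sub_mem (h.smul w hw g) hw

theorem IsStable.chg_mem {Λ : AddSubgroup (Y → ℤ)} (h : IsStable P inv Λ) {w : Y → ℤ}
    (hw : w ∈ Λ) (hodd : ∀ y, ¬ (2 : ℤ) ∣ w y) (g : P) :
    (fun y => dig w (g • y) + dig w y) ∈ bar Λ := by
  obtain ⟨m, hm, h1⟩ := h.dig_mem hw g fun y => by rw [cast_odd (hodd _), cast_odd (hodd _)]
  exact mem_bar.2 ⟨m, hm, h1⟩

/-- **The key identity.** -/
theorem key (H : HalfSystem P inv O) {e : Y → ℤ} {u v φ : Y → ZMod 2}
    (hu : u ∈ bar (rel P inv e)) (hv : v ∈ bar (spa P inv e)) (g : P)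
    (hug : ∀ y, u (g • y) = u y) (hvg : ∀ y, v (g • y) = v y)
    (hφ : ∀ y, φ (inv y) = φ y + 1) : ∑ y ∈ O, u y * v y * (φ (g • y) + φ y) = 0 := by
  have hus := (isStable_rel (P := P) H e).bar_inv u hu
  have hvs := (isStable_spa (P := P) H e).bar_inv v hv
  obtain ⟨w, hw, hwv⟩ := mem_bar.1 hv
  obtain ⟨m, hm, h1⟩ := (isStable_spa H e).dig_mem hw g fun y => by rw [hwv, hwv, hvg]
  have h2 := orth H hu (mem_bar.2 ⟨m, hm, h1⟩)
  let θ : Y → ZMod 2 := fun y => dig w y + v y * φ y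
  have hθ : ∀ y, θ (inv y) = θ y := by
    intro y
    change dig w (inv y) + v (inv y) * φ (inv y) = dig w y + v y * φ y
    rw [dig_inv hw.1, hwv, hvs, hφ]
    have h3 := add_self' (v y)
    linear_combination h3
  have h3 : ∑ y ∈ O, u (g • y) * θ (g • y) = ∑ y ∈ O, u y * θ y :=
    H.sum_smul (fun y => u y * θ y) (fun y => by rw [hus, hθ]) g
  have h4 : ∀ y, u y * v y * (φ (g • y) + φ y) =
      u y * (dig w (g • y) + dig w y) + (u (g • y) * θ (g • y) + u y * θ y) := by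
    intro y
    change _ = _ + (u (g • y) * (dig w (g • y) + v (g • y) * φ (g • y)) +
      u y * (dig w y + v y * φ y))
    rw [hug, hvg]
    have h5 := add_self' (u y * dig w (g • y))
    have h6 := add_self' (u y * dig w y)
    linear_combination -h5 - h6
  rw [sum_congr rfl fun y _ => h4 y, sum_add_distrib, h2, zero_add, sum_add_distrib, h3]
  exact add_self' _

end

end Pool.Agent.Q29.EP
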