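import Mathlib
import Pool.Agent.Q29.EP.Lattice

/-!
# Odd relations, semi-invariant functions, and the graph property
-/

set_option autoImplicit false
set_option linter.unusedSectionVars false

namespace Pool.Agent.Q29.EP

open MulAction Finset Pool.Agent.Q29.DP

section

variable {P : Type*} [Group P] [Fintype P] {Y : Type*} [Fintype Y] [DecidableEq Y]
  [MulAction P Y] {inv : Y → Y} {O : Finset Y}

/-- If there are relations then there is a relation all whose values are odd. -/
theorem exists_odd [IsPretransitive P Y] (hP : IsPGroup 2 P) (H : HalfSystem P inv O)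
    {e : Y → ℤ} (h0 : ∃ n ∈ rel P inv e, n ≠ 0) :
    ∃ n ∈ rel P inv e, ∀ y, ¬ (2 : ℤ) ∣ n y := by
  obtain ⟨n, hn, hnd, hns⟩ := exists_fixed_mod 2 hP (rel P inv e)
    (fun s n hn => (isStable_rel H e).smul n hn s⁻¹) h0
  refine ⟨n, hn, fun y₀ hy₀ => hnd ?_⟩
  have hall : ∀ y, ∃ m : ℤ, n y = 2 * m := by
    intro y
    obtain ⟨g, rfl⟩ := exists_smul_eq P y₀ y
    obtain ⟨m, -, hm⟩ := hns g⁻¹
    have h1 := hm y₀
    rw [inv_inv] at h1
    obtain ⟨a, ha⟩ := hy₀
    refine ⟨a + m y₀, ?_⟩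
    push_cast at h1
    linarith
  choose m hm using hall
  refine ⟨m, (isStable_rel H e).half m ?_, ?_⟩
  · have h1 : (fun y => 2 * m y) = n := funext fun y => (hm y).symm
    rw [h1]
    exact hn
  · funext y
    rw [hm]
    push_cast
    rfl

/-- The constant function one is the reduction of an odd function. -/
theorem one_mem_bar {Λ : AddSubgroup (Y → ℤ)} {n : Y → ℤ} (hn : n ∈ Λ)
    (hodd : ∀ y, ¬ (2 : ℤ) ∣ n y) : (fun _ => 1 : Y → ZMod 2) ∈ bar Λ :=
  mem_bar.2 ⟨n, hn, fun y => cast_odd (hodd y)⟩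

/-- A function on `Y` that is invariant under the involution and changes by the constant `b g` under
the element `g` of the group. -/
structure Semi (inv : Y → Y) (h : Y → ZMod 2) (b : P → ZMod 2) : Prop where
  inv : ∀ y, h (inv y) = h y
  smul : ∀ (g : P) (y : Y), h (g • y) = h y + b g

theorem Semi.mul [Nonempty Y] {h : Y → ZMod 2} {b : P → ZMod 2} (hs : Semi inv h b) (g k : P) :
    b (g * k) = b g + b k := by
  obtain ⟨y⟩ := (inferInstance : Nonempty Y)
  have h1 := hs.smul (g * k) y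
  rw [mul_smul, hs.smul, hs.smul] at h1
  generalize h y = a at *
  generalize b g = p at *
  generalize b k = q at *
  generalize b (g * k) = r at *
  revert a p q r
  decide

theorem Semi.one [Nonempty Y] {h : Y → ZMod 2} {b : P → ZMod 2} (hs : Semi inv h b) :
    b 1 = 0 := by
  have h1 := hs.mul 1 1
  rw [one_mul] at h1
  generalize b 1 = a at *
  revert a
  decide

theorem Semi.add {h h' : Y → ZMod 2} {b b' : P → ZMod 2} (hs : Semi inv h b)
    (hs' : Semi inv h' b') : Semi inv (fun y => h y + h' y) (fun g => b g + b' g) where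
  inv y := by rw [hs.inv, hs'.inv]
  smul g y := by rw [hs.smul, hs'.smul]; ring

/-- The sum of a product with a coboundary. -/
theorem Semi.sum (H : HalfSystem P inv O) {h : Y → ZMod 2} {b : P → ZMod 2} (hs : Semi inv h b)
    {θ : Y → ZMod 2} (hθ : ∀ y, θ (inv y) = θ y) (g : P) :
    ∑ y ∈ O, h y * (θ (g • y) + θ y) = b g * ∑ y ∈ O, θ y := by
  have h1 : ∑ y ∈ O, h (g • y) * θ (g • y) = ∑ y ∈ O, h y * θ y :=
    H.sum_smul (fun y => h y * θ y) (fun y => by rw [hs.inv, hθ]) g
  have h2 : ∑ y ∈ O, θ (g • y) = ∑ y ∈ O, θ y := H.sum_smul θ hθ g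
  have h3 : ∀ y, h y * (θ (g • y) + θ y) =
      (h (g • y) * θ (g • y) + h y * θ y) + b g * θ (g • y) := by
    intro y
    rw [hs.smul]
    generalize h y = a
    generalize θ (g • y) = p
    generalize θ y = q
    generalize b g = r
    revert a p q r
    decide
  rw [sum_congr rfl fun y _ => h3 y, sum_add_distrib, sum_add_distrib, h1, add_self', zero_add,
    ← mul_sum, h2]

/-- The sum of a coboundary. -/
theorem sum_cob (H : HalfSystem P inv O) {θ : Y → ZMod 2} (hθ : ∀ y, θ (inv y) = θ y) (g : P) :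
    ∑ y ∈ O, (θ (g • y) + θ y) = 0 := by
  rw [sum_add_distrib, H.sum_smul θ hθ g]
  exact add_self' _

theorem card_half (H : HalfSystem P inv O) : 2 * O.card = Fintype.card Y := by
  have h1 := sum_half inv H.invol O H.half (fun _ => 1) (fun _ => rfl)
  simp only [sum_const, nsmul_eq_mul, mul_one, card_univ] at h1
  exact_mod_cast h1.symm

/-- The number of the points of a half system where a semi-invariant function is one. -/
theorem Semi.card (H : HalfSystem P inv O) {h : Y → ZMod 2} {b : P → ZMod 2}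
    (hs : Semi inv h b) {g₀ : P} (hg : b g₀ = 1) :
    4 * ∑ y ∈ O, ((h y).val : ℤ) = Fintype.card Y := by
  have h1 := H.sum_int (fun y => ((h y).val : ℤ)) (fun y => by rw [hs.inv]) g₀
  have h2 : ∀ y, ((h (g₀ • y)).val : ℤ) = 1 - ((h y).val : ℤ) := by
    intro y
    rw [hs.smul, hg]
    generalize h y = a
    revert a
    decide
  simp only [h2] at h1
  rw [sum_sub_distrib, sum_const, nsmul_eq_mul, mul_one] at h1
  have h3 := card_half H
  have h4 : ((2 * O.card : ℕ) : ℤ) = Fintype.card Y := by rw [h3]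
  push_cast at h4
  linarith

theorem sum_val (s : Finset Y) (f : Y → ZMod 2) :
    ∑ y ∈ s, f y = ((∑ y ∈ s, ((f y).val : ℤ) : ℤ) : ZMod 2) := by
  rw [Int.cast_sum]
  exact sum_congr rfl fun y _ => (val_cast _).symm

theorem Semi.sum_eq_zero (H : HalfSystem P inv O) {h : Y → ZMod 2} {b : P → ZMod 2}
    (hs : Semi inv h b) {g₀ : P} (hg : b g₀ = 1) {k : ℕ} (hk : Fintype.card Y = 2 ^ k)
    (h3 : 3 ≤ k) : ∑ y ∈ O, h y = 0 := by
  rw [sum_val]
  refine cast_even ?_
  have h1 := hs.card H hg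
  rw [hk] at h1
  obtain ⟨k', rfl⟩ := Nat.exists_eq_add_of_le h3
  rw [pow_add] at h1
  push_cast at h1
  exact ⟨2 ^ k', by linarith⟩

theorem card_half_even (H : HalfSystem P inv O) {k : ℕ} (hk : Fintype.card Y = 2 ^ k)
    (h3 : 3 ≤ k) : ∃ m : ℕ, O.card = 4 * m := by
  have h1 := card_half H
  rw [hk] at h1
  obtain ⟨k', rfl⟩ := Nat.exists_eq_add_of_le h3
  rw [pow_add] at h1
  exact ⟨2 ^ k', by linarith⟩

/-- The sum over a block. -/
theorem block_sum (H : HalfSystem P inv O) {h h' : Y → ZMod 2} {b b' : P → ZMod 2}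
    (hs : Semi inv h b) (hs' : Semi inv h' b') {g₁ g₂ : P} (h1 : b g₁ = 1) (h1' : b' g₁ = 0)
    (h2 : b' g₂ = 1) {k : ℕ} (hk : Fintype.card Y = 2 ^ k) (h4 : 4 ≤ k) :
    ∑ y ∈ O, (1 + h y) * h' y = 0 := by
  rw [sum_val]
  refine cast_even ?_
  have h5 := H.sum_int (fun y => (((1 + h y) * h' y).val : ℤ)) (fun y => by
    rw [hs.inv, hs'.inv]) g₁
  have h6 : ∀ y, (((1 + h (g₁ • y)) * h' (g₁ • y)).val : ℤ) =
      ((h' y).val : ℤ) - (((1 + h y) * h' y).val : ℤ) := by
    intro y
    rw [hs.smul, hs'.smul, h1, h1']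
    generalize h y = a
    generalize h' y = c
    revert a c
    decide
  simp only [h6] at h5
  rw [sum_sub_distrib] at h5
  have h7 := hs'.card H h2
  rw [hk] at h7
  obtain ⟨k', rfl⟩ := Nat.exists_eq_add_of_le h4
  rw [pow_add] at h7
  push_cast at h7
  exact ⟨2 ^ k', by linarith⟩

/-- The elements of the group which preserve a function. -/
def fixer (P : Type*) [Group P] {Y : Type*} [MulAction P Y] (h : Y → ZMod 2) : Subgroup P where
  carrier := {g | ∀ y, h (g • y) = h y}
  mul_mem' := by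
    intro a b ha hb y
    rw [mul_smul, ha, hb]
  one_mem' := fun y => by rw [one_smul]
  inv_mem' := by
    intro a ha y
    rw [← ha, smul_inv_smul]

theorem mem_fixer {h : Y → ZMod 2} {g : P} : g ∈ fixer P h ↔ ∀ y, h (g • y) = h y := Iff.rfl

theorem Semi.mem_fixer {h : Y → ZMod 2} {b : P → ZMod 2} (hs : Semi inv h b) {g : P}
    (hg : b g = 0) : g ∈ fixer P h := fun y => by rw [hs.smul, hg, add_zero]

/-- A group element which maps a point to a point with the same value of a semi-invariant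
function. -/
theorem Semi.exists_smul [IsPretransitive P Y] {h : Y → ZMod 2} {b : P → ZMod 2}
    (hs : Semi inv h b) {x y : Y} (hxy : h x = h y) : ∃ g : P, g • x = y ∧ b g = 0 := by
  obtain ⟨g, rfl⟩ := exists_smul_eq P x y
  refine ⟨g, rfl, ?_⟩
  rw [hs.smul] at hxy
  generalize h x = a at *
  generalize b g = c at *
  revert a c
  decide

/-- **The graph property.** If the reduction of a stable lattice does not contain the semi-invariant
function `h` then its elements that vanish where `h` is zero are zero. -/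
theorem graph [IsPretransitive P Y] (hP : IsPGroup 2 P) {Λ : AddSubgroup (Y → ℤ)}
    (hΛ : IsStable P inv Λ) {h : Y → ZMod 2} {b : P → ZMod 2} (hs : Semi inv h b)
    (hh : h ∉ bar Λ) {v : Y → ZMod 2} (hv : v ∈ bar Λ) (hv0 : ∀ y, h y = 0 → v y = 0) (y : Y) :
    v y = 0 := by
  by_contra hy
  let W : AddSubgroup (Y → ZMod 2) :=
    { carrier := {v | v ∈ bar Λ ∧ ∀ y, h y = 0 → v y = 0}
      zero_mem' := ⟨AddSubgroup.zero_mem _, fun _ _ => rfl⟩
      add_mem' := by
        rintro a c ⟨ha, ha'⟩ ⟨hc, hc'⟩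
        refine ⟨AddSubgroup.add_mem _ ha hc, fun y hy => ?_⟩
        rw [Pi.add_apply, ha' y hy, hc' y hy, add_zero]
      neg_mem' := by
        rintro a ⟨ha, ha'⟩
        refine ⟨AddSubgroup.neg_mem _ ha, fun y hy => ?_⟩
        rw [Pi.neg_apply, ha' y hy, neg_zero] }
  obtain ⟨w, ⟨hw1, hw2⟩, hw0, hfix⟩ := exists_fixed (S := fixer P h) (hP.to_subgroup _) W (by
    rintro ⟨s, hs'⟩ v ⟨hv, hv'⟩
    refine ⟨hΛ.bar_smul s v hv, fun y hy => hv' _ ?_⟩
    change h (s • y) = 0
    rw [(mem_fixer.1 hs') y, hy]) ⟨v, ⟨hv, hv0⟩, fun h1 => hy (congrFun h1 y)⟩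
  apply hh
  have h1 : ∃ y, w y ≠ 0 := by
    by_contra h2
    push Not at h2
    exact hw0 (funext h2)
  obtain ⟨x, hx⟩ := h1
  have hx1 : w x = 1 := (two_cases _).resolve_left hx
  have hx2 : h x = 1 := (two_cases _).resolve_left fun h2 => hx (hw2 x h2)
  have h2 : w = h := by
    funext y
    rcases two_cases (h y) with h3 | h3
    · rw [hw2 y h3, h3]
    · obtain ⟨g, hg, hbg⟩ := hs.exists_smul (hx2.trans h3.symm)
      have h4 := hfix ⟨g, hs.mem_fixer hbg⟩ x
      have h5 : w (g • x) = w x := h4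
      rw [hg, hx1] at h5
      rw [h5, h3]
  rw [← h2]
  exact hw1

end

end Pool.Agent.Q29.EP
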