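import Mathlib
import Pool.Agent.Q29.EP.Semi

/-!
# The translates of an antisymmetric function span everything on an odd part
-/

set_option autoImplicit false
set_option linter.unusedSectionVars false

namespace Pool.Agent.Q29.EP

open MulAction Finset Pool.Agent.Q29.DP

section

variable {P : Type*} [Group P] [Fintype P] {Y : Type*} [Fintype Y] [DecidableEq Y]
  [MulAction P Y] {inv : Y → Y} {O : Finset Y}

/-- The point of the half system in the pair of `y`. -/
def rep (inv : Y → Y) (O : Finset Y) (h : ∀ y, y ∈ O ↔ inv y ∉ O) (y : Y) : O :=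
  if hy : y ∈ O then ⟨y, hy⟩ else ⟨inv y, by
    by_contra h1
    exact hy ((h y).2 h1)⟩

theorem rep_mem {h : ∀ y, y ∈ O ↔ inv y ∉ O} (y : O) : rep inv O h y = y := by
  unfold rep
  rw [dif_pos y.2]

theorem rep_inv (H : HalfSystem P inv O) (y : Y) : rep inv O H.half (inv y) = rep inv O H.half y := by
  unfold rep
  by_cases hy : y ∈ O
  · have h1 := (H.half y).1 hy
    rw [dif_neg h1, dif_pos hy]
    exact Subtype.ext (H.invol y)
  · have h1 : inv y ∈ O := by
      by_contra h2
      exact hy ((H.half y).2 h2)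
    rw [dif_pos h1, dif_neg hy]

/-- Separation of a function from a group of symmetric functions. -/
theorem separate (H : HalfSystem P inv O) (Z : AddSubgroup (Y → ZMod 2))
    (hZ : ∀ z ∈ Z, ∀ y, z (inv y) = z y) {u : Y → ZMod 2} (hu : ∀ y, u (inv y) = u y)
    (huZ : u ∉ Z) : ∃ ζ : Y → ZMod 2, (∀ y, ζ (inv y) = ζ y) ∧
      (∀ z ∈ Z, ∑ y ∈ O, ζ y * z y = 0) ∧ ∑ y ∈ O, ζ y * u y ≠ 0 := by
  let res : (Y → ZMod 2) →ₗ[ZMod 2] (O → ZMod 2) :=
    LinearMap.funLeft (ZMod 2) (ZMod 2) (Subtype.val : O → Y)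
  have hres : ∀ f y, res f y = f y := fun f y => rfl
  let Z' : Submodule (ZMod 2) (Y → ZMod 2) := AddSubgroup.toZModSubmodule 2 Z
  have hu' : res u ∉ Z'.map res := by
    rintro ⟨z, hz, hzu⟩
    apply huZ
    have hz' : z ∈ Z := hz
    have h1 : z = u := by
      funext y
      by_cases hy : y ∈ O
      · exact congrFun hzu ⟨y, hy⟩
      · have h2 : inv y ∈ O := by
          by_contra h2
          exact hy ((H.half y).2 h2)
        have h3 := congrFun hzu ⟨inv y, h2⟩
        rw [hres, hres] at h3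
        rw [← hZ z hz' y, ← hu y]
        exact h3
    rw [← h1]
    exact hz'
  obtain ⟨f, hf, hker⟩ := Submodule.exists_le_ker_of_notMem hu'
  have hsum : ∀ v : Y → ZMod 2,
      ∑ y ∈ O, f (Pi.single (rep inv O H.half y) 1) * v y = f (res v) := by
    intro v
    rw [LinearMap.pi_apply_eq_sum_univ f (res v), ← sum_coe_sort O]
    refine sum_congr rfl fun o _ => ?_
    rw [rep_mem, hres, smul_eq_mul, mul_comm]
    congr 2
    funext j
    by_cases h : o = j
    · subst h
      rw [Pi.single_eq_same, if_pos rfl]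
    · rw [Pi.single_eq_of_ne (Ne.symm h), if_neg h]
  refine ⟨fun y => f (Pi.single (rep inv O H.half y) 1), fun y => ?_, fun z hz => ?_, ?_⟩
  · change f (Pi.single (rep inv O H.half (inv y)) 1) = f (Pi.single (rep inv O H.half y) 1)
    rw [rep_inv H]
  · rw [hsum]
    exact hker ⟨z, hz, rfl⟩
  · rw [hsum]
    exact hf

/-- **The span.** -/
theorem span [IsPretransitive P Y] (hP : IsPGroup 2 P) (H : HalfSystem P inv O)
    {h : Y → ZMod 2} {b : P → ZMod 2} (hs : Semi inv h b) {φ : Y → ZMod 2}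
    (hφ : ∀ y, φ (inv y) = φ y + 1) {σ : P} (hσ : b σ = 0)
    (hodd : ∑ y ∈ O, (1 + h y) * (φ (σ • y) + φ y) ≠ 0) {u : Y → ZMod 2}
    (hu : ∀ y, u (inv y) = u y) : ∃ c : P → ZMod 2, (∀ g, b g ≠ 0 → c g = 0) ∧
      ∑ g, c g = 0 ∧ ∀ y, h y = 0 → ∑ g, c g * φ (g • y) = u y := by
  classical
  by_cases hY : Nonempty Y
  swap
  · exact ⟨0, fun _ _ => rfl, by simp, fun y => absurd ⟨y⟩ hY⟩
  let Z : AddSubgroup (Y → ZMod 2) :=
    { carrier := {u | (∀ y, u (inv y) = u y) ∧ ∃ c : P → ZMod 2, (∀ g, b g ≠ 0 → c g = 0) ∧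
        ∑ g, c g = 0 ∧ ∀ y, h y = 0 → ∑ g, c g * φ (g • y) = u y}
      zero_mem' := ⟨fun _ => rfl, 0, fun _ _ => rfl, by simp, fun y _ => by simp⟩
      add_mem' := by
        rintro x y ⟨hx, c, hc1, hc2, hc3⟩ ⟨hy, d, hd1, hd2, hd3⟩
        refine ⟨fun z => by rw [Pi.add_apply, hx, hy, Pi.add_apply], c + d, fun g hg => ?_, ?_,
          fun z hz => ?_⟩
        · rw [Pi.add_apply, hc1 g hg, hd1 g hg, add_zero]
        · simp only [Pi.add_apply, sum_add_distrib, hc2, hd2, add_zero]
        · simp only [Pi.add_apply, add_mul, sum_add_distrib, hc3 z hz, hd3 z hz]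
      neg_mem' := by
        rintro x ⟨hx, c, hc1, hc2, hc3⟩
        refine ⟨fun z => by rw [Pi.neg_apply, hx, Pi.neg_apply], c, hc1, hc2, fun z hz => ?_⟩
        rw [hc3 z hz, Pi.neg_apply, ZMod.neg_eq_self_mod_two] }
  by_contra hcon
  have huZ : u ∉ Z := fun h1 => hcon h1.2
  obtain ⟨ζ, hζ1, hζ2, hζ3⟩ := separate H Z (fun z hz => hz.1) hu huZ
  -- the stability of `Z`
  have hZst : ∀ k : P, b k = 0 → ∀ z ∈ Z, (fun y => z (k • y)) ∈ Z := by
    rintro k hk z ⟨hz, c, hc1, hc2, hc3⟩
    refine ⟨fun y => by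
      change z (k • inv y) = z (k • y)
      rw [H.comm, hz], fun g => c (g * k⁻¹), fun g hg => ?_, ?_, fun y hy => ?_⟩
    · refine hc1 _ ?_
      have h1 := hs.mul (g * k⁻¹) k
      rw [inv_mul_cancel_right, hk, add_zero] at h1
      rw [← h1]
      exact hg
    · rw [← hc2]
      exact Fintype.sum_equiv (Equiv.mulRight k⁻¹) _ _ fun g => rfl
    · have h1 := hc3 (k • y) (by rw [hs.smul, hy, hk, add_zero])
      change ∑ g, c (g * k⁻¹) * φ (g • y) = z (k • y)
      rw [← h1]
      refine Fintype.sum_equiv (Equiv.mulRight k⁻¹) _ _ fun g => ?_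
      change c (g * k⁻¹) * φ (g • y) = c (g * k⁻¹) * φ ((g * k⁻¹) • k • y)
      rw [smul_smul, inv_mul_cancel_right]
  let A : AddSubgroup (Y → ZMod 2) :=
    { carrier := {ζ | (∀ y, ζ (inv y) = ζ y) ∧ ∀ z ∈ Z, ∑ y ∈ O, ζ y * z y = 0}
      zero_mem' := ⟨fun _ => rfl, fun z _ => by simp⟩
      add_mem' := by
        rintro x y ⟨hx, hx'⟩ ⟨hy, hy'⟩
        refine ⟨fun z => by rw [Pi.add_apply, hx, hy, Pi.add_apply], fun z hz => ?_⟩
        simp only [Pi.add_apply, add_mul, sum_add_distrib, hx' z hz, hy' z hz, add_zero]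
      neg_mem' := by
        rintro x ⟨hx, hx'⟩
        refine ⟨fun z => by rw [Pi.neg_apply, hx, Pi.neg_apply], fun z hz => ?_⟩
        simp only [Pi.neg_apply, neg_mul, sum_neg_distrib, hx' z hz, neg_zero] }
  obtain ⟨ξ, ⟨hξ1, hξ2⟩, hξ0, hfix⟩ := exists_fixed (S := fixer P h) (hP.to_subgroup _) A (by
    rintro ⟨k, hk⟩ v ⟨hv, hv'⟩
    refine ⟨fun y => ?_, fun z hz => ?_⟩
    · change v (k • inv y) = v (k • y)
      rw [H.comm, hv]
    · have hk' : k⁻¹ ∈ fixer P h := Subgroup.inv_mem _ hk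
      have hbk : b k⁻¹ = 0 := by
        obtain ⟨y⟩ := hY
        have h1 := (mem_fixer.1 hk') y
        rw [hs.smul] at h1
        generalize h y = p at *
        generalize b k⁻¹ = q at *
        revert p q
        decide
      have h1 := hv' _ (hZst k⁻¹ hbk z hz)
      have h2 := H.sum_smul (fun y => v y * z (k⁻¹ • y)) (fun y => by rw [hv, H.comm, hz.1]) k
      rw [h1] at h2
      simp only [inv_smul_smul] at h2
      exact h2) ⟨ζ, ⟨hζ1, hζ2⟩, fun h1 => hζ3 (by
      rw [h1]
      simp)⟩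
  -- the fixed function vanishes where `h` is one
  have hv1 : ∀ y, h y = 1 → ξ y = 0 := by
    intro y₁ hy₁
    have hne : inv y₁ ≠ y₁ := by
      intro h1
      have h2 := H.half y₁
      rw [h1] at h2
      exact absurd h2 (by tauto)
    have hz : (fun y => if y = y₁ ∨ y = inv y₁ then 1 else 0 : Y → ZMod 2) ∈ Z := by
      refine ⟨fun y => ?_, 0, fun _ _ => rfl, by simp, fun y hy => ?_⟩
      · have h1 : (inv y = y₁ ∨ inv y = inv y₁) ↔ (y = y₁ ∨ y = inv y₁) := by
          constructor
          · rintro (h1 | h1)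
            · exact Or.inr (by rw [← h1, H.invol])
            · exact Or.inl (by rw [← H.invol y, h1, H.invol])
          · rintro (h1 | h1)
            · exact Or.inr (by rw [h1])
            · exact Or.inl (by rw [h1, H.invol])
        simp only [h1]
      · have h1 : ¬ (y = y₁ ∨ y = inv y₁) := by
          rintro (h1 | h1)
          · rw [h1, hy₁] at hy
            exact one_ne_zero hy
          · rw [h1, hs.inv, hy₁] at hy
            exact one_ne_zero hy
        simp [h1]
    have h1 := hξ2 _ hz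
    by_cases hO : y₁ ∈ O
    · have h2 : inv y₁ ∉ O := (H.half y₁).1 hO
      rw [sum_eq_single y₁] at h1
      · simpa using h1
      · intro y hy hne'
        rw [if_neg, mul_zero]
        rintro (h3 | h3)
        · exact hne' h3
        · exact h2 (h3 ▸ hy)
      · intro h3
        exact absurd hO h3
    · have h2 : inv y₁ ∈ O := by
        by_contra h2
        exact hO ((H.half y₁).2 h2)
      rw [sum_eq_single (inv y₁)] at h1
      · rw [← hξ1]
        simpa using h1
      · intro y hy hne'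
        rw [if_neg, mul_zero]
        rintro (h3 | h3)
        · exact hO (h3 ▸ hy)
        · exact hne' h3
      · intro h3
        exact absurd h2 h3
  -- it is one where `h` is zero
  have h1 : ∃ y, ξ y ≠ 0 := by
    by_contra h2
    push Not at h2
    exact hξ0 (funext h2)
  obtain ⟨x, hx⟩ := h1
  have hx1 : ξ x = 1 := (two_cases _).resolve_left hx
  have hx2 : h x = 0 := (two_cases _).resolve_right fun h2 => hx (hv1 x h2)
  have hval : ∀ y, ξ y = 1 + h y := by
    intro y
    rcases two_cases (h y) with h3 | h3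
    · obtain ⟨g, hg, hbg⟩ := hs.exists_smul (hx2.trans h3.symm)
      have h4 := hfix ⟨g, hs.mem_fixer hbg⟩ x
      have h5 : ξ (g • x) = ξ x := h4
      rw [hg, hx1] at h5
      rw [h5, h3, add_zero]
    · rw [hv1 y h3, h3]
      decide
  -- the contradiction
  apply hodd
  have hb1 : b 1 = 0 := hs.one
  have hzσ : (fun y => φ (σ • y) + φ y) ∈ Z := by
    refine ⟨fun y => ?_, Pi.single σ 1 + Pi.single 1 1, fun g hg => ?_, ?_, fun y hy => ?_⟩
    · change φ (σ • inv y) + φ (inv y) = φ (σ • y) + φ y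
      rw [H.comm, hφ, hφ]
      generalize φ (σ • y) = p
      generalize φ y = q
      revert p q
      decide
    · have h2 : g ≠ σ := fun h3 => hg (by rw [h3, hσ])
      have h3 : g ≠ 1 := fun h4 => hg (by rw [h4, hb1])
      rw [Pi.add_apply, Pi.single_eq_of_ne h2, Pi.single_eq_of_ne h3, add_zero]
    · simp only [Pi.add_apply, sum_add_distrib, sum_pi_single', mem_univ, if_true]
      decide
    · simp only [Pi.add_apply, add_mul, sum_add_distrib, Pi.single_apply, ite_mul, one_mul,
        zero_mul, sum_ite_eq', mem_univ, if_true, one_smul]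
  have h2 := hξ2 _ hzσ
  rw [← h2]
  exact sum_congr rfl fun y _ => by rw [hval]

end

end Pool.Agent.Q29.EP
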