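import Mathlib
import Pool.Agent.Q29.EP.Span

/-!
# The dihedral configuration
-/

set_option autoImplicit false
set_option linter.unusedSectionVars false

namespace Pool.Agent.Q29.EP

open MulAction Finset Pool.Agent.Q29.DP

section

variable {P : Type*} [Group P] [Fintype P] {Y : Type*} [Fintype Y] [DecidableEq Y]
  [MulAction P Y] {inv : Y → Y} {O : Finset Y}

/-- Two semi-invariant functions and an antisymmetric function. -/
structure Conf (inv : Y → Y) (O : Finset Y) (h h' : Y → ZMod 2) (b b' : P → ZMod 2)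
    (φ : Y → ZMod 2) : Prop where
  semi : Semi inv h b
  semi' : Semi inv h' b'
  anti : ∀ y, φ (inv y) = φ y + 1
  c1 : ∀ g : P, ∑ y ∈ O, h y * (φ (g • y) + φ y) = 0
  c2 : ∀ g : P, ∑ y ∈ O, h' y * (φ (g • y) + φ y) = b' g
  c3 : ∀ g : P, ∑ y ∈ O, (φ (g • y) + φ y) = 0

variable {h h' : Y → ZMod 2} {b b' : P → ZMod 2} {φ : Y → ZMod 2}

theorem split_right (κ φ θ : Y → ZMod 2) (g : P) :
    ∑ y ∈ O, κ y * (φ (g • y) + θ (g • y) + (φ y + θ y)) =
      ∑ y ∈ O, κ y * (φ (g • y) + φ y) + ∑ y ∈ O, κ y * (θ (g • y) + θ y) := by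
  rw [← sum_add_distrib]
  exact sum_congr rfl fun y _ => by ring

theorem split_one (φ θ : Y → ZMod 2) (g : P) :
    ∑ y ∈ O, (φ (g • y) + θ (g • y) + (φ y + θ y)) =
      ∑ y ∈ O, (φ (g • y) + φ y) + ∑ y ∈ O, (θ (g • y) + θ y) := by
  rw [← sum_add_distrib]
  exact sum_congr rfl fun y _ => by ring

theorem split_left (κ κ' φ : Y → ZMod 2) (g : P) :
    ∑ y ∈ O, (κ y + κ' y) * (φ (g • y) + φ y) =
      ∑ y ∈ O, κ y * (φ (g • y) + φ y) + ∑ y ∈ O, κ' y * (φ (g • y) + φ y) := by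
  rw [← sum_add_distrib]
  exact sum_congr rfl fun y _ => by ring

theorem split_left_one (κ φ : Y → ZMod 2) (g : P) :
    ∑ y ∈ O, (1 + κ y) * (φ (g • y) + φ y) =
      ∑ y ∈ O, (φ (g • y) + φ y) + ∑ y ∈ O, κ y * (φ (g • y) + φ y) := by
  rw [← sum_add_distrib]
  exact sum_congr rfl fun y _ => by ring

theorem Conf.add (H : HalfSystem P inv O) (C : Conf inv O h h' b b' φ) {θ : Y → ZMod 2}
    (hθ : ∀ y, θ (inv y) = θ y) (h0 : ∑ y ∈ O, θ y = 0) :
    Conf inv O h h' b b' (fun y => φ y + θ y) where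
  semi := C.semi
  semi' := C.semi'
  anti y := by
    rw [C.anti, hθ]
    ring
  c1 g := by rw [split_right h φ θ g, C.c1, C.semi.sum H hθ g, h0, mul_zero, add_zero]
  c2 g := by rw [split_right h' φ θ g, C.c2, C.semi'.sum H hθ g, h0, mul_zero, add_zero]
  c3 g := by rw [split_one φ θ g, C.c3, sum_cob H hθ g, add_zero]

theorem Conf.swap (H : HalfSystem P inv O) (C : Conf inv O h h' b b' φ) {θ : Y → ZMod 2}
    (hθ : ∀ y, θ (inv y) = θ y) (h0 : ∑ y ∈ O, θ y = 1) :
    Conf inv O h' h b' b (fun y => φ y + θ y) where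
  semi := C.semi'
  semi' := C.semi
  anti y := by
    rw [C.anti, hθ]
    ring
  c1 g := by rw [split_right h' φ θ g, C.c2, C.semi'.sum H hθ g, h0, mul_one, add_self']
  c2 g := by rw [split_right h φ θ g, C.c1, C.semi.sum H hθ g, h0, mul_one, zero_add]
  c3 g := by rw [split_one φ θ g, C.c3, sum_cob H hθ g, add_zero]

theorem anti_add {φ ψ : Y → ZMod 2} (hφ : ∀ y, φ (inv y) = φ y + 1)
    (hψ : ∀ y, ψ (inv y) = ψ y + 1) (y : Y) : φ (inv y) + ψ (inv y) = φ y + ψ y := by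
  rw [hφ, hψ]
  generalize φ y = p
  generalize ψ y = q
  revert p q
  decide

/-- The two orbits of the subgroup are odd, for every antisymmetric function. -/
theorem Conf.odd (H : HalfSystem P inv O) (C : Conf inv O h h' b b' φ) {σ : P} (hσ : b σ = 1)
    (hσ' : b' σ = 1) {ψ : Y → ZMod 2} (hψ : ∀ y, ψ (inv y) = ψ y + 1) :
    ∑ y ∈ O, (h y + h' y) * (ψ (σ • y) + ψ y) = 1 ∧
      ∑ y ∈ O, (1 + (h y + h' y)) * (ψ (σ • y) + ψ y) = 1 := by
  obtain ⟨θ, hθdef⟩ : ∃ θ : Y → ZMod 2, θ = fun y => φ y + ψ y := ⟨_, rfl⟩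
  have hθ : ∀ y, θ (inv y) = θ y := fun y => by
    rw [hθdef]
    exact anti_add C.anti hψ y
  have hval : ψ = fun y => φ y + θ y := by
    funext y
    rw [hθdef]
    change ψ y = φ y + (φ y + ψ y)
    rw [← add_assoc, add_self', zero_add]
  have h3 : ∑ y ∈ O, (h y + h' y) * (ψ (σ • y) + ψ y) = 1 := by
    rw [split_left, hval, split_right h φ θ σ, split_right h' φ θ σ, C.c1, C.c2,
      C.semi.sum H hθ σ, C.semi'.sum H hθ σ, hσ, hσ', one_mul, zero_add]
    generalize ∑ y ∈ O, θ y = a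
    revert a
    decide
  refine ⟨h3, ?_⟩
  have h4 := split_left_one (O := O) (fun y => h y + h' y) ψ σ
  rw [h4, h3, hval, split_one φ θ σ, C.c3, sum_cob H hθ σ, add_zero, zero_add]

/-- The square of an element that moves both functions is odd on the blocks. -/
theorem Conf.sq (H : HalfSystem P inv O) (C : Conf inv O h h' b b' φ) {σ : P} (hσ : b σ = 1)
    (hσ' : b' σ = 1) : ∑ y ∈ O, h y * h' y * (φ ((σ * σ) • y) + φ y) = 1 := by
  obtain ⟨F, hFdef⟩ : ∃ F : Y → ZMod 2, F = fun y => φ (σ • y) + φ y := ⟨_, rfl⟩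
  have hF : ∀ y, F (inv y) = F y := by
    intro y
    rw [hFdef]
    change φ (σ • inv y) + φ (inv y) = φ (σ • y) + φ y
    rw [H.comm, C.anti, C.anti]
    generalize φ (σ • y) = p
    generalize φ y = q
    revert p q
    decide
  have h1 : ∑ y ∈ O, (1 + h (σ • y)) * (1 + h' (σ • y)) * F (σ • y) =
      ∑ y ∈ O, (1 + h y) * (1 + h' y) * F y :=
    H.sum_smul (fun y => (1 + h y) * (1 + h' y) * F y) (fun y => by
      rw [C.semi.inv, C.semi'.inv, hF]) σ
  have h2 : ∀ y, h y * h' y * (φ ((σ * σ) • y) + φ y) =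
      (1 + h (σ • y)) * (1 + h' (σ • y)) * F (σ • y) + h y * h' y * F y := by
    intro y
    rw [C.semi.smul, C.semi'.smul, hσ, hσ', hFdef]
    change _ = _ * (φ (σ • σ • y) + φ (σ • y)) + _ * (φ (σ • y) + φ y)
    rw [mul_smul]
    generalize φ (σ • σ • y) = p
    generalize φ (σ • y) = q
    generalize φ y = r
    generalize h y = s
    generalize h' y = t
    revert p q r s t
    decide
  rw [sum_congr rfl fun y _ => h2 y, sum_add_distrib, h1]
  have h3 : ∀ y, (1 + h y) * (1 + h' y) * F y =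
      (φ (σ • y) + φ y) + h y * (φ (σ • y) + φ y) + h' y * (φ (σ • y) + φ y) +
        h y * h' y * F y := by
    intro y
    rw [hFdef]
    ring
  rw [sum_congr rfl fun y _ => h3 y, sum_add_distrib, sum_add_distrib, sum_add_distrib,
    C.c1, C.c2, C.c3, hσ', zero_add, zero_add, add_assoc, add_self', add_zero]

end

end Pool.Agent.Q29.EP
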