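import Mathlib
import Pool.Agent.Q29.EP.Conf

/-!
# A function and its change on a block are not both degenerate
-/

set_option autoImplicit false
set_option linter.unusedSectionVars false

namespace Pool.Agent.Q29.EP

open MulAction Finset Pool.Agent.Q29.DP

section

variable {P : Type*} [Group P] [Fintype P] {Y : Type*} [Fintype Y] [DecidableEq Y]
  [MulAction P Y] {inv : Y → Y} {O : Finset Y}

/-- The combinations of the translates of a function. -/
theorem comb_mem {V : AddSubgroup (Y → ZMod 2)} {φ : Y → ZMod 2}
    (hV : ∀ g : P, (fun y => φ (g • y) + φ y) ∈ V) {c : P → ZMod 2} (hc : ∑ g, c g = 0) :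
    (fun y => ∑ g, c g * φ (g • y)) ∈ V := by
  have h1 : (fun y => ∑ g, c g * φ (g • y)) = ∑ g, fun y => c g * (φ (g • y) + φ y) := by
    funext y
    rw [Finset.sum_apply]
    simp only [mul_add, sum_add_distrib]
    rw [← sum_mul, hc, zero_mul, add_zero]
  rw [h1]
  refine AddSubgroup.sum_mem _ fun g _ => ?_
  rcases two_cases (c g) with h2 | h2
  · have h3 : (fun y => c g * (φ (g • y) + φ y)) = 0 := by
      funext y
      rw [h2, zero_mul]
      rfl
    rw [h3]
    exact V.zero_mem
  · have h3 : (fun y => c g * (φ (g • y) + φ y)) = fun y => φ (g • y) + φ y := by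
      funext y
      rw [h2, one_mul]
    rw [h3]
    exact hV g

theorem anti_dig {n : Y → ℤ} (hn : ∀ y, n (inv y) = -n y) (hodd : ∀ y, ¬ (2 : ℤ) ∣ n y) (y : Y) :
    dig n (inv y) = dig n y + 1 := by
  rw [dig_inv hn, cast_odd (hodd y)]

variable {h h' : Y → ZMod 2} {b b' : P → ZMod 2} {e : Y → ℤ}

/-- The first function is the reduction of a relation. -/
theorem mem_rel_of_conf [IsPretransitive P Y] (hP : IsPGroup 2 P) (H : HalfSystem P inv O)
    (he : ∀ y, e (inv y) = -e y) (hodd : ∀ y, ¬ (2 : ℤ) ∣ e y)
    (hrel : ∃ n ∈ rel P inv e, n ≠ 0) (C : Conf inv O h h' b b' (dig e)) {σ s : P}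
    (hσ : b σ = 1) (hσ' : b' σ = 1) (hs : b s = 0) (hs' : b' s = 1) :
    h ∈ bar (rel P inv e) := by
  obtain ⟨n, hn, hnodd⟩ := exists_odd hP H hrel
  have hstab := isStable_rel (P := P) H e
  have hone := one_mem_bar hn hnodd
  have hone' := one_mem_bar (self_mem_spa (P := P) he) hodd
  have hψ := anti_dig (hstab.anti n hn) hnodd
  have hS := C.semi.add C.semi'
  -- the sum is not a relation
  have hne : (fun y => h y + h' y) ∉ bar (rel P inv e) := by
    intro h1
    have h2 := key H h1 hone' σ (fun y => by
      rw [C.semi.smul, C.semi'.smul, hσ, hσ']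
      generalize h y = p
      generalize h' y = q
      revert p q
      decide) (fun _ => rfl) C.anti
    have h3 := (C.odd H hσ hσ' C.anti).1
    simp only [mul_one] at h2
    rw [h2] at h3
    exact zero_ne_one h3
  -- a relation with a given restriction
  obtain ⟨c, -, hc2, hc3⟩ := span hP H hS hψ (σ := σ) (by
    change b σ + b' σ = 0
    rw [hσ, hσ']
    decide) (by
    rw [(C.odd H hσ hσ' hψ).2]
    exact one_ne_zero) (u := fun y => (1 + h y) * (1 + h' y)) (fun y => by
    rw [C.semi.inv, C.semi'.inv])
  obtain ⟨r, hr⟩ : ∃ r : Y → ZMod 2, r = fun y => ∑ g, c g * dig n (g • y) := ⟨_, rfl⟩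
  have hrmem : r ∈ bar (rel P inv e) := by
    rw [hr]
    exact comb_mem (fun g => hstab.chg_mem hn hnodd g) hc2
  have hr0 : ∀ y, h y + h' y = 0 → r y = (1 + h y) * (1 + h' y) := by
    intro y hy
    rw [hr]
    exact hc3 y hy
  have hgraph : ∀ v ∈ bar (rel P inv e), (∀ y, h y + h' y = 0 → v y = 0) → ∀ y, v y = 0 :=
    fun v hv hv0 => graph hP hstab hS hne hv hv0
  have hfix : ∀ q : P, b q = 0 → b' q = 0 → ∀ y, r (q • y) = r y := by
    intro q hq hq' y
    refine eq_of_add ?_
    refine hgraph (fun y => r (q • y) + r y)
      (AddSubgroup.add_mem _ (hstab.bar_smul q r hrmem) hrmem) (fun y hy => ?_) y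
    rw [hr0 y hy, hr0 (q • y) (by rw [C.semi.smul, C.semi'.smul, hq, hq', add_zero, add_zero, hy]),
      C.semi.smul, C.semi'.smul, hq, hq', add_zero, add_zero]
    exact add_self' _
  have hmove : ∀ y, r (σ • y) = r y + 1 := by
    intro y
    have h1 := hgraph (fun y => r (σ • y) + r y + 1)
      (AddSubgroup.add_mem _ (AddSubgroup.add_mem _ (hstab.bar_smul σ r hrmem) hrmem) hone)
      (fun y hy => by
        have h2 : h (σ • y) + h' (σ • y) = 0 := by
          rw [C.semi.smul, C.semi'.smul, hσ, hσ']
          revert hy
          generalize h y = p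
          generalize h' y = q
          revert p q
          decide
        rw [hr0 y hy, hr0 _ h2, C.semi.smul, C.semi'.smul, hσ, hσ']
        revert hy
        generalize h y = p
        generalize h' y = q
        revert p q
        decide) y
    generalize r (σ • y) = p at *
    generalize r y = q at *
    revert p q
    decide
  have hconst : ∀ x y, h x = h y → h' x = h' y → r x = r y := by
    intro x y hx hx'
    obtain ⟨g, rfl⟩ := exists_smul_eq P x y
    rw [C.semi.smul] at hx
    rw [C.semi'.smul] at hx'
    refine (hfix g ?_ ?_ x).symm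
    · generalize h x = p at *
      generalize b g = q at *
      revert p q
      decide
    · generalize h' x = p at *
      generalize b' g = q at *
      revert p q
      decide
  by_cases hY : Nonempty Y
  swap
  · have h1 : h = 0 := funext fun y => absurd ⟨y⟩ hY
    rw [h1]
    exact AddSubgroup.zero_mem _
  have y₀ : Y := hY.some
  -- a point with values zero and one
  obtain ⟨x, hx, hx'⟩ : ∃ x, h x = 0 ∧ h' x = 1 := by
    have hpt : ∀ y, ∃ x, h x = 0 ∧ h' x = h' y := by
      intro y
      rcases two_cases (h y) with h1 | h1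
      · exact ⟨y, h1, rfl⟩
      · refine ⟨(σ * s) • y, ?_, ?_⟩
        · rw [C.semi.smul, C.semi.mul, hσ, hs, h1]
          decide
        · rw [C.semi'.smul, C.semi'.mul, hσ', hs', add_self', add_zero]
    obtain ⟨x, hx, hx'⟩ := hpt y₀
    rcases two_cases (h' x) with h2 | h2
    · exact ⟨s • x, by rw [C.semi.smul, hs, hx, add_zero], by
        rw [C.semi'.smul, hs', h2, zero_add]⟩
    · exact ⟨x, hx, h2⟩
  have hx2 : h (σ • x) = 1 := by rw [C.semi.smul, hσ, hx, zero_add]
  have hx2' : h' (σ • x) = 0 := by
    rw [C.semi'.smul, hσ', hx']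
    decide
  have hval : ∀ y, r y = if h y + h' y = 0 then (1 + h y) * (1 + h' y) else r x + h y := by
    intro y
    by_cases hy : h y + h' y = 0
    · rw [if_pos hy, hr0 y hy]
    · rw [if_neg hy]
      rcases two_cases (h y) with h1 | h1
      · have h2 : h' y = 1 := by
          rcases two_cases (h' y) with h3 | h3
          · rw [h1, h3] at hy
            exact absurd (by decide) hy
          · exact h3
        rw [h1, add_zero]
        exact hconst y x (by rw [h1, hx]) (by rw [h2, hx'])
      · have h2 : h' y = 0 := by
          rcases two_cases (h' y) with h3 | h3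
          · exact h3
          · rw [h1, h3] at hy
            exact absurd (by decide) hy
        rw [h1, ← hmove]
        exact hconst y (σ • x) (by rw [h1, hx2]) (by rw [h2, hx2'])
  rcases two_cases (r x) with h1 | h1
  · -- the second function would be a relation
    exfalso
    have h2 : (fun y => 1 + h' y) = r := by
      funext y
      rw [hval y, h1]
      generalize h y = p
      generalize h' y = q
      revert p q
      decide
    have h3 : h' ∈ bar (rel P inv e) := by
      have h4 := AddSubgroup.add_mem _ hone (h2 ▸ hrmem)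
      have h5 : ((fun _ => 1) + fun y => 1 + h' y : Y → ZMod 2) = h' := by
        funext y
        change 1 + (1 + h' y) = h' y
        generalize h' y = q
        revert q
        decide
      rw [h5] at h4
      exact h4
    have h4 := orth H h3 ((isStable_spa H e).chg_mem (self_mem_spa he) hodd s)
    rw [C.c2, hs'] at h4
    exact one_ne_zero h4
  · have h2 : (fun y => 1 + h y) = r := by
      funext y
      rw [hval y, h1]
      generalize h y = p
      generalize h' y = q
      revert p q
      decide
    have h4 := AddSubgroup.add_mem _ hone (h2 ▸ hrmem)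
    have h5 : ((fun _ => 1) + fun y => 1 + h y : Y → ZMod 2) = h := by
      funext y
      change 1 + (1 + h y) = h y
      generalize h y = q
      revert q
      decide
    rw [h5] at h4
    exact h4

end

end Pool.Agent.Q29.EP
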