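import Mathlib
import Pool.Agent.Q29.EP.Block

/-!
# A function and its change on a block are not both degenerate
-/

set_option autoImplicit false
set_option linter.unusedSectionVars false

namespace Pool.Agent.Q29.EP

open MulAction Finset Pool.Agent.Q29.DP

section

variable {P : Type*} [Group P] [Fintype P] {Y : Type*} [Fintype Y] [DecidableEq Y]
  [MulAction P Y] {inv : Y → Y} {O : Finset Y}
  {h h' : Y → ZMod 2} {b b' : P → ZMod 2} {e e' : Y → ℤ}

/-- **The block lemma.** -/
theorem block [IsPretransitive P Y] (hP : IsPGroup 2 P) (H : HalfSystem P inv O)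
    (he : ∀ y, e (inv y) = -e y) (hodd : ∀ y, ¬ (2 : ℤ) ∣ e y)
    (he' : ∀ y, e' (inv y) = -e' y) (hodd' : ∀ y, ¬ (2 : ℤ) ∣ e' y)
    (hrel : ∃ n ∈ rel P inv e, n ≠ 0) (hrel' : ∃ n ∈ rel P inv e', n ≠ 0)
    (C : Conf inv O h h' b b' (dig e)) {σ s : P}
    (hσ : b σ = 1) (hσ' : b' σ = 1) (hs : b s = 0) (hs' : b' s = 1) {β : Y → ZMod 2}
    (hβ : (∀ y, β y = (1 + h y) * h' y) ∨ ∀ y, β y = h y * (1 + h' y))
    (hβ0 : ∑ y ∈ O, β y = 0) (hee' : ∀ y, dig e' y = dig e y + β y) : False := by
  have hY : Nonempty Y := by
    obtain ⟨n, -, hn⟩ := hrel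
    by_contra h
    exact hn (funext fun y => absurd ⟨y⟩ h)
  have hβi : ∀ y, β (inv y) = β y := by
    intro y
    rcases hβ with hβ | hβ <;> rw [hβ, hβ, C.semi.inv, C.semi'.inv]
  have hh := mem_rel_of_conf hP H he hodd hrel C hσ hσ' hs hs'
  have hU := isStable_spa (P := P) H e
  have hU' := isStable_spa (P := P) H e'
  have heU := self_mem_spa (P := P) he
  have heU' := self_mem_spa (P := P) he'
  have hone := one_mem_bar heU hodd
  have hone' := one_mem_bar heU' hodd'
  -- the second function is not orthogonal to the relations
  have hh' : h' ∉ bar (spa P inv e) := by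
    intro h1
    have h2 := key H hh h1 (σ * σ) (fun y => by
      rw [C.semi.smul, C.semi.mul, add_self', add_zero]) (fun y => by
      rw [C.semi'.smul, C.semi'.mul, add_self', add_zero]) C.anti
    rw [C.sq H hσ hσ'] at h2
    exact one_ne_zero h2
  have C' : Conf inv O h h' b b' (dig e') := by
    have h1 := C.add H hβi hβ0
    have h2 : (fun y => dig e y + β y) = dig e' := funext fun y => (hee' y).symm
    rwa [h2] at h1
  have hS := C.semi.add C.semi'
  obtain ⟨n, hn, hnodd⟩ := exists_odd hP H hrel'
  have hone'' := one_mem_bar hn hnodd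
  -- the sum is not orthogonal to the relations of `e'`
  have hne : (fun y => h y + h' y) ∉ bar (spa P inv e') := by
    intro h1
    have h2 := key H hone'' h1 σ (fun _ => rfl) (fun y => by
      rw [C.semi.smul, C.semi'.smul, hσ, hσ']
      generalize h y = p
      generalize h' y = q
      revert p q
      decide) C.anti
    have h3 := (C.odd H hσ hσ' C.anti).1
    simp only [one_mul] at h2
    rw [h2] at h3
    exact zero_ne_one h3
  -- the translate by `s` is a combination
  obtain ⟨c, hc1, hc2, hc3⟩ := span hP H hS C'.anti (σ := σ) (by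
    rw [hσ, hσ']
    decide) (by
    rw [(C'.odd H hσ hσ' C'.anti).2]
    exact one_ne_zero) (u := fun y => dig e' (s • y) + dig e' y) (fun y => by
    rw [H.comm, C'.anti, C'.anti]
    generalize dig e' (s • y) = p
    generalize dig e' y = q
    revert p q
    decide)
  have hcomb : ∀ y, ∑ g, c g * dig e' (g • y) = dig e' (s • y) + dig e' y := by
    intro y
    refine eq_of_add ?_
    refine graph hP hU' hS hne (v := fun y => ∑ g, c g * dig e' (g • y) +
      (dig e' (s • y) + dig e' y)) (AddSubgroup.add_mem _
        (comb_mem (fun g => hU'.chg_mem heU' hodd' g) hc2) (hU'.chg_mem heU' hodd' s))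
      (fun y hy => ?_) y
    rw [hc3 y hy]
    exact add_self' _
  -- the number `κ`
  have hκ : ∑ g, c g * b g = 1 := by
    have h1 : ∀ g, c g * b g =
        ∑ y ∈ O, (1 + (h y + h' y)) * (c g * (dig e' (g • y) + dig e' y)) := by
      intro g
      by_cases hg : b g + b' g = 0
      · have h2 : b' g = b g := (eq_of_add hg).symm
        have h3 := split_left_one (O := O) (fun y => h y + h' y) (dig e') g
        rw [C'.c3, split_left h h' (dig e') g, C'.c1, C'.c2, zero_add, zero_add, h2] at h3
        rw [← h3, mul_sum]
        exact sum_congr rfl fun y _ => by ring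
      · rw [hc1 g hg, zero_mul]
        symm
        exact sum_eq_zero fun y _ => by ring
    rw [sum_congr rfl fun g _ => h1 g, sum_comm]
    have h2 : ∀ y, ∑ g, (1 + (h y + h' y)) * (c g * (dig e' (g • y) + dig e' y)) =
        (1 + (h y + h' y)) * (dig e' (s • y) + dig e' y) := by
      intro y
      rw [← mul_sum]
      congr 1
      rw [← hcomb y]
      simp only [mul_add, sum_add_distrib]
      rw [← sum_mul, hc2, zero_mul, add_zero]
    rw [sum_congr rfl fun y _ => h2 y, split_left_one (O := O) (fun y => h y + h' y) (dig e') s,
      C'.c3, split_left h h' (dig e') s, C'.c1, C'.c2, hs', zero_add, zero_add]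
  -- the combination of the translates of the block
  have hblock : ∀ y, ∑ g, c g * β (g • y) = h y + h' y := by
    intro y
    have h1 : ∀ g, c g * β (g • y) = c g * β y + c g * b g * (h y + h' y) := by
      intro g
      by_cases hg : b g + b' g = 0
      · have h2 : b' g = b g := (eq_of_add hg).symm
        rcases hβ with hβ | hβ <;>
        · rw [hβ, hβ, C.semi.smul, C.semi'.smul, h2]
          generalize c g = p
          generalize b g = q
          generalize h y = r
          generalize h' y = t
          revert p q r t
          decide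
      · rw [hc1 g hg]
        ring
    rw [sum_congr rfl fun g _ => h1 g, sum_add_distrib, ← sum_mul, ← sum_mul, hc2, hκ, zero_mul,
      zero_add, one_mul]
  -- the contradiction
  have hL : (fun y => ∑ g, c g * dig e (g • y)) ∈ bar (spa P inv e) :=
    comb_mem (fun g => hU.chg_mem heU hodd g) hc2
  have hLs := AddSubgroup.add_mem _ hL (hU.chg_mem heU hodd s)
  have hval : ∀ y, ∑ g, c g * dig e (g • y) + (dig e (s • y) + dig e y) =
      β (s • y) + β y + (h y + h' y) := by
    intro y
    have h1 : ∑ g, c g * dig e (g • y) = ∑ g, c g * dig e' (g • y) + ∑ g, c g * β (g • y) := by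
      rw [← sum_add_distrib]
      refine sum_congr rfl fun g _ => ?_
      rw [hee']
      generalize c g = p
      generalize dig e (g • y) = q
      generalize β (g • y) = r
      revert p q r
      decide
    rw [h1, hcomb, hblock, hee', hee']
    generalize dig e (s • y) = p
    generalize dig e y = q
    generalize β (s • y) = r
    generalize β y = t
    generalize h y = u
    generalize h' y = v
    revert p q r t u v
    decide
  apply hh'
  rcases hβ with hβ | hβ
  · have h2 : ((fun y => ∑ g, c g * dig e (g • y)) + (fun y => dig e (s • y) + dig e y) +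
        (fun _ => 1) : Y → ZMod 2) = h' := by
      funext y
      change ∑ g, c g * dig e (g • y) + (dig e (s • y) + dig e y) + 1 = h' y
      rw [hval, hβ, hβ, C.semi.smul, C.semi'.smul, hs, hs']
      generalize h y = u
      generalize h' y = v
      revert u v
      decide
    rw [← h2]
    exact AddSubgroup.add_mem _ hLs hone
  · have h2 : ((fun y => ∑ g, c g * dig e (g • y)) + (fun y => dig e (s • y) + dig e y) :
        Y → ZMod 2) = h' := by
      funext y
      change ∑ g, c g * dig e (g • y) + (dig e (s • y) + dig e y) = h' y
      rw [hval, hβ, hβ, C.semi.smul, C.semi'.smul, hs, hs']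
      generalize h y = u
      generalize h' y = v
      revert u v
      decide
    rw [← h2]
    exact hLs

end

end Pool.Agent.Q29.EP
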