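import Mathlib
import Pool.Agent.Q29.EP.Final

/-!
# One of two antisymmetric functions satisfies no relations: 2-groups
-/

set_option autoImplicit false
set_option linter.unusedSectionVars false

namespace Pool.Agent.Q29.EP

open MulAction Finset Pool.Agent.Q29.DP

/-- The change of the signs of a function. -/
def flipBy {Y : Type*} (β : Y → ZMod 2) (e : Y → ℤ) (y : Y) : ℤ := if β y = 0 then e y else -e y

section

variable {P : Type*} [Group P] [Fintype P] {Y : Type*} [Fintype Y] [DecidableEq Y]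
  [MulAction P Y] {inv : Y → Y} {O : Finset Y}

theorem flipBy_odd {β : Y → ZMod 2} {e : Y → ℤ} (he : ∀ y, ¬ (2 : ℤ) ∣ e y) (y : Y) :
    ¬ (2 : ℤ) ∣ flipBy β e y := by
  unfold flipBy
  split_ifs
  · exact he y
  · rw [dvd_neg]
    exact he y

theorem flipBy_inv {β : Y → ZMod 2} (hβ : ∀ y, β (inv y) = β y) {e : Y → ℤ}
    (he : ∀ y, e (inv y) = -e y) (y : Y) : flipBy β e (inv y) = -flipBy β e y := by
  unfold flipBy
  rw [hβ, he]
  split_ifs <;> rfl

theorem dig_flipBy {β : Y → ZMod 2} {e : Y → ℤ} (he : ∀ y, ¬ (2 : ℤ) ∣ e y) (y : Y) :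
    dig (flipBy β e) y = dig e y + β y := by
  unfold dig flipBy
  rcases two_cases (β y) with h | h
  · rw [if_pos h, h, add_zero]
  · rw [if_neg (by rw [h]; exact one_ne_zero), dig_neg, cast_odd (he y), h]

/-- The sum of the digits of two orthogonal odd functions. -/
theorem sum_dig {a c : Y → ℤ} (ha : ∀ y, ¬ (2 : ℤ) ∣ a y) (hc : ∀ y, ¬ (2 : ℤ) ∣ c y)
    {m : ℕ} (hm : O.card = 4 * m) (h0 : ∑ y ∈ O, a y * c y = 0) :
    ∑ y ∈ O, (dig a y + dig c y) = 0 := by
  have h1 : ∀ y, a y * c y = 2 * (a y / 2 + c y / 2 + 2 * (a y / 2 * (c y / 2))) + 1 := by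
    intro y
    have h2 : a y = 2 * (a y / 2) + 1 := by
      have := ha y
      omega
    have h3 : c y = 2 * (c y / 2) + 1 := by
      have := hc y
      omega
    generalize a y / 2 = p at *
    generalize c y / 2 = q at *
    rw [h2, h3]
    ring
  simp only [h1] at h0
  rw [sum_add_distrib, ← mul_sum, sum_const, hm, nsmul_eq_mul, mul_one] at h0
  have h2 : ∑ y ∈ O, (a y / 2 + c y / 2 + 2 * (a y / 2 * (c y / 2))) = 2 * (-(m : ℤ)) := by
    push_cast at h0
    linarith
  have h3 := congrArg (fun t : ℤ => (t : ZMod 2)) h2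
  have h4 : ((2 : ℤ) : ZMod 2) = 0 := by decide
  simp only [Int.cast_sum, Int.cast_add, Int.cast_mul, h4, zero_mul, add_zero] at h3
  exact h3

/-- The constant functions. -/
def consts (Y : Type*) : AddSubgroup (Y → ZMod 2) where
  carrier := {v | ∃ a, v = fun _ => a}
  zero_mem' := ⟨0, rfl⟩
  add_mem' := by
    rintro a b ⟨x, rfl⟩ ⟨y, rfl⟩
    exact ⟨x + y, rfl⟩
  neg_mem' := by
    rintro a ⟨x, rfl⟩
    exact ⟨-x, rfl⟩

theorem mem_consts {v : Y → ZMod 2} : v ∈ consts Y ↔ ∃ a, v = fun _ => a := Iff.rfl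

/-- A nonconstant semi-invariant function which is the reduction of a relation. -/
theorem exists_semi [IsPretransitive P Y] (hP : IsPGroup 2 P) (H : HalfSystem P inv O)
    {e : Y → ℤ} (he : ∀ y, e (inv y) = -e y) (hodd : ∀ y, ¬ (2 : ℤ) ∣ e y)
    (hne : ∃ v ∈ bar (rel P inv e), v ∉ consts Y) :
    ∃ (h : Y → ZMod 2) (b : P → ZMod 2), Semi inv h b ∧ (∃ g, b g = 1) ∧
      ∀ g : P, ∑ y ∈ O, h y * (dig e (g • y) + dig e y) = 0 := by
  have hst := isStable_rel (P := P) H e
  obtain ⟨h, hh, hhc, hfix⟩ := exists_fixed_quot hP (bar (rel P inv e)) (consts Y)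
    (fun s v hv => hst.bar_smul s v hv) (by
      rintro s v ⟨a, rfl⟩
      exact ⟨a, rfl⟩) hne
  choose b hb using fun s : P => mem_consts.1 (hfix s)
  have hsemi : Semi inv h b := by
    refine ⟨hst.bar_inv h hh, fun g y => ?_⟩
    have h1 := congrFun (hb g) y
    change h (g • y) + h y = b g at h1
    generalize h (g • y) = p at *
    generalize h y = q at *
    generalize b g = r at *
    revert p q r
    decide
  refine ⟨h, b, hsemi, ?_, fun g => orth H hh ((isStable_spa H e).chg_mem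
    (self_mem_spa he) hodd g)⟩
  by_contra hcon
  push Not at hcon
  apply hhc
  by_cases hY : Nonempty Y
  · obtain ⟨y₀⟩ := hY
    refine ⟨h y₀, funext fun y => ?_⟩
    obtain ⟨g, rfl⟩ := exists_smul_eq P y₀ y
    rw [hsemi.smul, (two_cases (b g)).resolve_right (hcon g), add_zero]
  · exact ⟨0, funext fun y => absurd ⟨y⟩ hY⟩

/-- The indicator of a pair. -/
def pair (inv : Y → Y) (y₀ y : Y) : ZMod 2 := if y = y₀ ∨ y = inv y₀ then 1 else 0

theorem pair_inv (H : HalfSystem P inv O) (y₀ y : Y) : pair inv y₀ (inv y) = pair inv y₀ y := by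
  unfold pair
  have h1 : (inv y = y₀ ∨ inv y = inv y₀) ↔ (y = y₀ ∨ y = inv y₀) := by
    constructor
    · rintro (h1 | h1)
      · exact Or.inr (by rw [← h1, H.invol])
      · exact Or.inl (by rw [← H.invol y, h1, H.invol])
    · rintro (h1 | h1)
      · exact Or.inr (by rw [h1])
      · exact Or.inl (by rw [h1, H.invol])
  simp only [h1]

theorem pair_sum (H : HalfSystem P inv O) {y₀ : Y} (hy₀ : y₀ ∈ O) :
    ∑ y ∈ O, pair inv y₀ y = 1 := by
  rw [sum_eq_single y₀]
  · unfold pair
    rw [if_pos (Or.inl rfl)]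
  · intro y hy hne
    unfold pair
    rw [if_neg]
    rintro (h1 | h1)
    · exact hne h1
    · exact (H.half y₀).1 hy₀ (h1 ▸ hy)
  · exact fun h => absurd hy₀ h

/-- Three elements of the group. -/
theorem exists_elements [Nonempty Y] {h h' : Y → ZMod 2} {b b' : P → ZMod 2}
    (hs : Semi inv h b) (hs' : Semi inv h' b') (h1 : ∃ g, b g = 1) (h2 : ∃ g, b' g = 1)
    (h3 : ∃ g, b g ≠ b' g) : (∃ g, b g = 1 ∧ b' g = 1) ∧ (∃ g, b g = 0 ∧ b' g = 1) ∧
      ∃ g, b g = 1 ∧ b' g = 0 := by
  obtain ⟨g₁, h1⟩ := h1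
  obtain ⟨g₂, h2⟩ := h2
  obtain ⟨g₃, h3⟩ := h3
  have key : ∀ g k : P, b (g * k) = b g + b k ∧ b' (g * k) = b' g + b' k := fun g k =>
    ⟨hs.mul g k, hs'.mul g k⟩
  -- the three cases
  have hsum : ∀ g k : P, b g = 1 → b' g = 0 → b k = 0 → b' k = 1 →
      (∃ g, b g = 1 ∧ b' g = 1) ∧ (∃ g, b g = 0 ∧ b' g = 1) ∧ ∃ g, b g = 1 ∧ b' g = 0 := by
    intro g k p1 p2 p3 p4
    refine ⟨⟨g * k, ?_, ?_⟩, ⟨k, p3, p4⟩, ⟨g, p1, p2⟩⟩
    · rw [(key g k).1, p1, p3, add_zero]
    · rw [(key g k).2, p2, p4, zero_add]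
  have hdiag : ∀ g k : P, b g = 1 → b' g = 1 → b k ≠ b' k →
      (∃ g, b g = 1 ∧ b' g = 1) ∧ (∃ g, b g = 0 ∧ b' g = 1) ∧ ∃ g, b g = 1 ∧ b' g = 0 := by
    intro g k p1 p2 p3
    rcases two_cases (b k) with q1 | q1
    · have q2 : b' k = 1 := (two_cases _).resolve_left fun q => p3 (q1.trans q.symm)
      refine ⟨⟨g, p1, p2⟩, ⟨k, q1, q2⟩, ⟨g * k, ?_, ?_⟩⟩
      · rw [(key g k).1, p1, q1, add_zero]
      · rw [(key g k).2, p2, q2]
        decide
    · have q2 : b' k = 0 := (two_cases _).resolve_right fun q => p3 (q1.trans q.symm)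
      refine ⟨⟨g, p1, p2⟩, ⟨g * k, ?_, ?_⟩, ⟨k, q1, q2⟩⟩
      · rw [(key g k).1, p1, q1]
        decide
      · rw [(key g k).2, p2, q2, add_zero]
  rcases two_cases (b' g₁) with p1 | p1
  · rcases two_cases (b g₂) with p2 | p2
    · exact hsum g₁ g₂ h1 p1 p2 h2
    · exact hdiag g₂ g₁ p2 h2 (by rw [h1, p1]; exact one_ne_zero)
  · exact hdiag g₁ g₃ h1 p1 h3

/-- **One of two functions satisfies no relations.** -/
theorem core_two [IsPretransitive P Y] (hP : IsPGroup 2 P) (H : HalfSystem P inv O)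
    {k : ℕ} (hk : Fintype.card Y = 2 ^ k) (h4 : 4 ≤ k) :
    ∃ β : Y → ZMod 2, (∀ y, β (inv y) = β y) ∧ ∀ e : Y → ℤ, (∀ y, e (inv y) = -e y) →
      (∀ y, ¬ (2 : ℤ) ∣ e y) → (∀ n ∈ rel P inv e, n = 0) ∨
        ∀ n ∈ rel P inv (flipBy β e), n = 0 := by
  have h3 : 3 ≤ k := by omega
  have hY : Nonempty Y := by
    rw [← Fintype.card_pos_iff, hk]
    positivity
  obtain ⟨y₁⟩ := hY
  have hY : Nonempty Y := ⟨y₁⟩
  obtain ⟨y₀, hy₀⟩ : ∃ y₀, y₀ ∈ O := by
    by_cases h : y₁ ∈ O
    · exact ⟨y₁, h⟩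
    · exact ⟨inv y₁, by
        by_contra h1
        exact h ((H.half y₁).2 h1)⟩
  obtain ⟨m, hm⟩ := card_half_even H hk h3
  by_cases hex : ∃ (ε : Y → ZMod 2) (a : P → ZMod 2), (∀ y, ε (inv y) = ε y + 1) ∧
      ∀ (g : P) (y : Y), ε (g • y) = ε y + a g
  · -- there is a semi-invariant antisymmetric function
    obtain ⟨ε, a, hε, hεg⟩ := hex
    have claim : ∀ e : Y → ℤ, (∀ y, e (inv y) = -e y) → (∀ y, ¬ (2 : ℤ) ∣ e y) →
        (∃ n ∈ rel P inv e, n ≠ 0) → ∑ y ∈ O, (dig e y + ε y) = 0 := by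
      intro e he hodd hrel
      obtain ⟨n, hn, hnodd⟩ := exists_odd hP H hrel
      have hφ := anti_dig he hodd
      have hψ := anti_dig hn.1 hnodd
      by_cases hc : ∃ g : P, (fun y => dig n (g • y) + dig n y) ∉ consts Y
      · obtain ⟨g, hg⟩ := hc
        obtain ⟨h, b, hsemi, ⟨g₁, hg₁⟩, hC⟩ := exists_semi hP H he hodd
          ⟨_, (isStable_rel H e).chg_mem hn hnodd g, hg⟩
        have h1 := hC g₁
        obtain ⟨θ, hθdef⟩ : ∃ θ : Y → ZMod 2, θ = fun y => dig e y + ε y := ⟨_, rfl⟩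
        have hθ : ∀ y, θ (inv y) = θ y := fun y => by
          rw [hθdef]
          exact anti_add hφ hε y
        have h2 := hsemi.sum H hθ g₁
        have h5 := hsemi.sum_eq_zero H hg₁ hk h3
        have h6 : ∀ y, h y * (θ (g₁ • y) + θ y) =
            h y * (dig e (g₁ • y) + dig e y) + h y * a g₁ := by
          intro y
          rw [hθdef]
          change h y * (dig e (g₁ • y) + ε (g₁ • y) + (dig e y + ε y)) = _
          rw [hεg]
          have h7 := add_self' (h y * ε y)
          linear_combination h7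
        rw [sum_congr rfl fun y _ => h6 y, sum_add_distrib, h1, ← sum_mul, h5, zero_mul,
          add_zero, hg₁, one_mul] at h2
        rw [hθdef] at h2
        exact h2.symm
      · push Not at hc
        choose c hc using fun g : P => mem_consts.1 (hc g)
        have hsm : Semi inv (fun y => dig n y + ε y) (fun g => c g + a g) := by
          refine ⟨fun y => anti_add hψ hε y, fun g y => ?_⟩
          have h1 := congrFun (hc g) y
          change dig n (g • y) + dig n y = c g at h1
          change dig n (g • y) + ε (g • y) = dig n y + ε y + (c g + a g)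
          rw [hεg, ← h1]
          have h7 := add_self' (dig n y)
          linear_combination -h7
        have h1 : ∑ y ∈ O, (dig n y + ε y) = 0 := by
          by_cases hg : ∃ g, c g + a g = 1
          · obtain ⟨g, hg⟩ := hg
            exact hsm.sum_eq_zero H hg hk h3
          · push Not at hg
            have h2 : ∀ y, dig n y + ε y = dig n y₀ + ε y₀ := by
              intro y
              obtain ⟨g, rfl⟩ := exists_smul_eq P y₀ y
              have h5 := hsm.smul g y₀
              rw [(two_cases (c g + a g)).resolve_right (hg g), add_zero] at h5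
              exact h5
            rw [sum_congr rfl fun y _ => h2 y, sum_const, hm, nsmul_eq_mul]
            have h5 : ((4 * m : ℕ) : ZMod 2) = 0 := by
              push_cast
              have h6 : (4 : ZMod 2) = 0 := by decide
              rw [h6, zero_mul]
            rw [h5, zero_mul]
        have h2 : ∑ y ∈ O, n y * e y = 0 := by
          have h5 := hn.2 1
          simp only [one_smul] at h5
          rw [sum_half inv H.invol O H.half (fun y => n y * e y) (fun y => by
            rw [hn.1, he]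
            ring)] at h5
          exact (mul_eq_zero.1 h5).resolve_left two_ne_zero
        have h5 := sum_dig hnodd hodd hm h2
        have h6 : ∀ y, dig e y + ε y = (dig n y + dig e y) + (dig n y + ε y) := by
          intro y
          have h7 := add_self' (dig n y)
          linear_combination -h7
        rw [sum_congr rfl fun y _ => h6 y, sum_add_distrib, h5, h1, add_zero]
    refine ⟨pair inv y₀, pair_inv H y₀, fun e he hodd => ?_⟩
    by_contra hcon
    push Not at hcon
    obtain ⟨h1, h2⟩ := hcon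
    have h5 := claim e he hodd h1
    have h6 := claim (flipBy (pair inv y₀) e) (flipBy_inv (pair_inv H y₀) he)
      (flipBy_odd hodd) h2
    have h7 : ∀ y, dig (flipBy (pair inv y₀) e) y + ε y =
        (dig e y + ε y) + pair inv y₀ y := by
      intro y
      rw [dig_flipBy hodd]
      ring
    rw [sum_congr rfl fun y _ => h7 y, sum_add_distrib, h5, pair_sum H hy₀, zero_add] at h6
    exact one_ne_zero h6
  · -- there is no semi-invariant antisymmetric function
    have claim : ∀ e : Y → ℤ, (∀ y, e (inv y) = -e y) → (∀ y, ¬ (2 : ℤ) ∣ e y) →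
        (∃ n ∈ rel P inv e, n ≠ 0) → ∃ (h : Y → ZMod 2) (b : P → ZMod 2), Semi inv h b ∧
          (∃ g, b g = 1) ∧ ∀ g : P, ∑ y ∈ O, h y * (dig e (g • y) + dig e y) = 0 := by
      intro e he hodd hrel
      obtain ⟨n, hn, hnodd⟩ := exists_odd hP H hrel
      have hψ := anti_dig hn.1 hnodd
      by_cases hc : ∃ g : P, (fun y => dig n (g • y) + dig n y) ∉ consts Y
      · obtain ⟨g, hg⟩ := hc
        exact exists_semi hP H he hodd ⟨_, (isStable_rel H e).chg_mem hn hnodd g, hg⟩
      · exfalso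
        push Not at hc
        choose c hc using fun g : P => mem_consts.1 (hc g)
        refine hex ⟨dig n, c, hψ, fun g y => ?_⟩
        have h1 := congrFun (hc g) y
        change dig n (g • y) + dig n y = c g at h1
        rw [← h1]
        have h7 := add_self' (dig n y)
        linear_combination -h7
    by_cases hone : ∀ e : Y → ℤ, (∀ y, e (inv y) = -e y) → (∀ y, ¬ (2 : ℤ) ∣ e y) →
        (∀ n ∈ rel P inv e, n = 0) ∨ ∀ n ∈ rel P inv (flipBy (pair inv y₀) e), n = 0
    · exact ⟨pair inv y₀, pair_inv H y₀, hone⟩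
    push Not at hone
    obtain ⟨e₁, he₁, hodd₁, hr, hr'⟩ := hone
    obtain ⟨h, b, hs, hb, hC⟩ := claim e₁ he₁ hodd₁ hr
    obtain ⟨h', b', hs', hb', hC'⟩ := claim _ (flipBy_inv (pair_inv H y₀) he₁)
      (flipBy_odd hodd₁) hr'
    have hφ₁ := anti_dig he₁ hodd₁
    have hC2 : ∀ g : P, ∑ y ∈ O, h' y * (dig e₁ (g • y) + dig e₁ y) = b' g := by
      intro g
      have h1 := hC' g
      have h2 := hs'.sum H (pair_inv H y₀) g
      rw [pair_sum H hy₀, mul_one] at h2
      have h5 : ∀ y, h' y * (dig (flipBy (pair inv y₀) e₁) (g • y) +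
          dig (flipBy (pair inv y₀) e₁) y) = h' y * (dig e₁ (g • y) + dig e₁ y) +
          h' y * (pair inv y₀ (g • y) + pair inv y₀ y) := by
        intro y
        rw [dig_flipBy hodd₁, dig_flipBy hodd₁]
        ring
      rw [sum_congr rfl fun y _ => h5 y, sum_add_distrib, h2] at h1
      exact eq_of_add h1
    obtain ⟨n, hn, hnodd⟩ := exists_odd hP H hr
    have hC3 : ∀ g : P, ∑ y ∈ O, (dig e₁ (g • y) + dig e₁ y) = 0 := by
      intro g
      have h1 := orth H (one_mem_bar hn hnodd) ((isStable_spa H e₁).chg_mem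
        (self_mem_spa he₁) hodd₁ g)
      simpa using h1
    have C : Conf inv O h h' b b' (dig e₁) := ⟨hs, hs', hφ₁, hC, hC2, hC3⟩
    have hbb : ∃ g, b g ≠ b' g := by
      by_contra hcon
      push Not at hcon
      obtain ⟨g, hg⟩ := hb'
      have h1 : ∀ y, h' y = h y + (h y₀ + h' y₀) := by
        intro y
        obtain ⟨q, rfl⟩ := exists_smul_eq P y₀ y
        rw [hs.smul, hs'.smul, hcon]
        have h7 := add_self' (h y₀)
        linear_combination -h7
      have h2 := hC2 g
      rw [hg] at h2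
      have h5 : ∀ y, h' y * (dig e₁ (g • y) + dig e₁ y) =
          h y * (dig e₁ (g • y) + dig e₁ y) +
            (h y₀ + h' y₀) * (dig e₁ (g • y) + dig e₁ y) := by
        intro y
        rw [h1 y]
        ring
      rw [sum_congr rfl fun y _ => h5 y, sum_add_distrib, hC, ← mul_sum, hC3, mul_zero,
        add_zero] at h2
      exact zero_ne_one h2
    obtain ⟨⟨σ, hσ, hσ'⟩, ⟨s, hs0, hs1⟩, ⟨s', hs0', hs1'⟩⟩ := exists_elements hs hs' hb hb' hbb
    obtain ⟨β, hβ⟩ : ∃ β : Y → ZMod 2, β = fun y => (1 + h y) * h' y := ⟨_, rfl⟩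
    have hβi : ∀ y, β (inv y) = β y := fun y => by
      rw [hβ]
      change (1 + h (inv y)) * h' (inv y) = (1 + h y) * h' y
      rw [hs.inv, hs'.inv]
    have hβ0 : ∑ y ∈ O, β y = 0 := by
      rw [hβ]
      exact block_sum H hs hs' hs0' hs1' hs1 hk h4
    refine ⟨β, hβi, fun e he hodd => ?_⟩
    by_contra hcon
    push Not at hcon
    obtain ⟨hra, hrb⟩ := hcon
    have hφ := anti_dig he hodd
    obtain ⟨θ, hθdef⟩ : ∃ θ : Y → ZMod 2, θ = fun y => dig e₁ y + dig e y := ⟨_, rfl⟩
    have hθ : ∀ y, θ (inv y) = θ y := fun y => by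
      rw [hθdef]
      exact anti_add hφ₁ hφ y
    have hval : (fun y => dig e₁ y + θ y) = dig e := by
      funext y
      rw [hθdef]
      change dig e₁ y + (dig e₁ y + dig e y) = dig e y
      rw [← add_assoc, add_self', zero_add]
    rcases two_cases (∑ y ∈ O, θ y) with ht | ht
    · have C1 := C.add H hθ ht
      rw [hval] at C1
      exact block hP H he hodd (flipBy_inv hβi he) (flipBy_odd hodd) hra hrb C1 hσ hσ' hs0 hs1
        (β := β) (Or.inl fun y => by rw [hβ]) hβ0 (dig_flipBy hodd)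
    · have C1 := C.swap H hθ ht
      rw [hval] at C1
      exact block hP H he hodd (flipBy_inv hβi he) (flipBy_odd hodd) hra hrb C1 hσ' hσ hs1' hs0'
        (β := β) (Or.inr fun y => by
          rw [hβ]
          change (1 + h y) * h' y = h' y * (1 + h y)
          ring) hβ0 (dig_flipBy hodd)

end

end Pool.Agent.Q29.EP
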