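import Mathlib
import Pool.Agent.Q29.EP.Two
import Pool.Agent.H925R2.Core

/-!
# One of two antisymmetric functions satisfies no relations: all prime powers
-/

set_option autoImplicit false
set_option linter.unusedSectionVars false

namespace Pool.Agent.Q29.EP

open MulAction Finset Pool.Agent.Q29.DP

section

variable {G : Type*} [Group G] [Finite G] {Y : Type*} [Fintype Y] [DecidableEq Y]
  [MulAction G Y] {inv : Y → Y}

/-- The translates of `e` satisfy no antisymmetric relation. -/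
def Free (G : Type*) [Group G] {Y : Type*} [Fintype Y] [MulAction G Y] (inv : Y → Y)
    (e : Y → ℤ) : Prop :=
  ∀ c : Y → ℤ, (∀ y, c (inv y) = -c y) → (∀ g : G, ∑ y, c y * e (g • y) = 0) → c = 0

/-- An element of odd order whose square fixes a point fixes the point. -/
theorem fix_of_sq {p : ℕ} (hp2 : p ≠ 2) [Fact p.Prime] {S : Subgroup G} (hS : IsPGroup p S)
    (g : S) {y : Y} (h : g • g • y = y) : g • y = y := by
  obtain ⟨k, hk⟩ := hS g
  have hodd : Odd (p ^ k) := ((Fact.out : p.Prime).odd_of_ne_two hp2).pow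
  obtain ⟨m, hm⟩ := hodd
  have h1 : ∀ n : ℕ, (g * g) ^ n • y = y := by
    intro n
    induction n with
    | zero => rw [pow_zero, one_smul]
    | succ n ih => rw [pow_succ, mul_smul, mul_smul, h, ih]
  have h2 : g * ((g * g) ^ m) = 1 := by
    rw [← hk, hm, ← pow_two, ← pow_mul, pow_succ']
  have h3 : (g * (g * g) ^ m) • y = y := by rw [h2, one_smul]
  rw [mul_smul, h1] at h3
  exact h3

/-- An orbit of a Sylow group is a half system; an antisymmetric function whose sum over it is not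
divisible by the prime satisfies no relation. -/
theorem core_odd [IsPretransitive G Y] (hinv : ∀ y, inv (inv y) = y) (hne : ∀ y, inv y ≠ y)
    (hG : ∀ (g : G) (y : Y), g • inv y = inv (g • y)) (p k : ℕ) [Fact p.Prime] (hp2 : p ≠ 2)
    (hcard : Fintype.card Y = 2 * p ^ k) :
    ∃ O : Finset Y, (∀ y, y ∈ O ↔ inv y ∉ O) ∧ ∀ e : Y → ℤ, (∀ y, e (inv y) = -e y) →
      ¬ (p : ℤ) ∣ ∑ y ∈ O, e y → Free G inv e := by
  classical
  have hp : p.Prime := Fact.out
  obtain ⟨S⟩ := (inferInstance : Nonempty (Sylow p G))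
  have hS : IsPGroup p S := S.isPGroup'
  have hpairs := Pool.Agent.H925R2.sylow_pairs hinv hne hG p k hcard S
  have hY : Nonempty Y := by
    rw [← Fintype.card_pos_iff, hcard]
    have := hp.pos
    positivity
  obtain ⟨y₀⟩ := hY
  let O : Finset Y := univ.filter (fun y => ∃ s : S, s • y₀ = y)
  have hmem : ∀ y, y ∈ O ↔ ∃ s : S, s • y₀ = y := fun y => by simp [O]
  have hO : ∀ y, y ∈ O ↔ inv y ∉ O := by
    intro y
    rw [hmem, hmem]
    constructor
    · rintro ⟨s, hs⟩ ⟨t, ht⟩
      have h1 : (t * s⁻¹) • y = inv y := by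
        rw [mul_smul, ← hs, inv_smul_smul, ht, ← hs]
      have h2 : (t * s⁻¹) • inv y = inv ((t * s⁻¹) • y) := hG ((t * s⁻¹ : S) : G) y
      have h3 : (t * s⁻¹) • (t * s⁻¹) • y = y := by rw [h1, h2, h1, hinv]
      exact hne y (h1.symm.trans (fix_of_sq hp2 hS _ h3))
    · intro h1
      obtain ⟨s, hs | hs⟩ := hpairs y₀ y
      · exact ⟨s, hs⟩
      · exact absurd ⟨s, hs⟩ h1
  refine ⟨O, hO, fun e he hnd c hc hrel => ?_⟩
  by_contra hc0
  have H : HalfSystem S inv O := ⟨hinv, fun g y => hG g y, hO⟩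
  obtain ⟨n, hn, hnd', hns⟩ := exists_fixed_mod p hS (rel S inv e)
    (fun s n hn => (isStable_rel H e).smul n hn s⁻¹) ⟨c, ⟨hc, fun g => hrel g⟩, hc0⟩
  have hcong : ∀ y ∈ O, (p : ℤ) ∣ n y - n y₀ := by
    intro y hy
    obtain ⟨s, rfl⟩ := (hmem y).1 hy
    obtain ⟨m, -, hm⟩ := hns s⁻¹
    have h1 := hm y₀
    rw [inv_inv] at h1
    exact ⟨m y₀, h1⟩
  have h0 : ¬ (p : ℤ) ∣ n y₀ := by
    intro h0
    apply hnd'
    have hall : ∀ y, ∃ m : ℤ, n y = p * m := by
      intro y
      by_cases hy : y ∈ O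
      · exact (dvd_sub_left h0).1 (hcong y hy)
      · have h1 : inv y ∈ O := by
          by_contra h2
          exact hy ((hO y).2 h2)
        have h2 := (dvd_sub_left h0).1 (hcong _ h1)
        rw [hn.1] at h2
        exact (dvd_neg).1 h2
    choose m hm using hall
    have hp0 : (p : ℤ) ≠ 0 := by exact_mod_cast hp.ne_zero
    refine ⟨m, ⟨fun y => ?_, fun g => ?_⟩, funext hm⟩
    · have h1 := hn.1 y
      rw [hm, hm, ← mul_neg] at h1
      exact mul_left_cancel₀ hp0 h1
    · have h1 := hn.2 g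
      have h2 : ∑ y, n y * e (g • y) = p * ∑ y, m y * e (g • y) := by
        rw [mul_sum]
        exact sum_congr rfl fun y _ => by rw [hm]; ring
      rw [h2] at h1
      exact (mul_eq_zero.1 h1).resolve_left hp0
  have h1 := hn.2 1
  simp only [one_smul] at h1
  rw [sum_half inv hinv O hO (fun y => n y * e y) (fun y => by
    rw [hn.1, he]
    ring)] at h1
  have h2 := (mul_eq_zero.1 h1).resolve_left two_ne_zero
  have h3 : (p : ℤ) ∣ n y₀ * ∑ y ∈ O, e y := by
    have h4 : n y₀ * ∑ y ∈ O, e y = -∑ y ∈ O, (n y - n y₀) * e y := by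
      simp only [sub_mul, sum_sub_distrib]
      rw [h2, ← mul_sum]
      ring
    rw [h4, dvd_neg]
    exact dvd_sum fun y hy => Dvd.dvd.mul_right (hcong y hy) _
  have h5 : Prime (p : ℤ) := Nat.prime_iff_prime_int.1 hp
  exact (h5.dvd_or_dvd h3).elim h0 hnd

theorem sum_flip_pair (H : ∀ y, inv (inv y) = y) {O : Finset Y} (hO : ∀ y, y ∈ O ↔ inv y ∉ O)
    {e : Y → ℤ} (he : ∀ y, e (inv y) = -e y) (y₁ : Y) :
    ∑ y ∈ O, flipBy (pair inv y₁) e y = ∑ y ∈ O, e y - 2 * e y₁ ∨
      ∑ y ∈ O, flipBy (pair inv y₁) e y = ∑ y ∈ O, e y + 2 * e y₁ := by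
  have key : ∀ x ∈ O, (x = y₁ ∨ x = inv y₁) →
      ∑ y ∈ O, flipBy (pair inv y₁) e y = ∑ y ∈ O, e y - 2 * e x := by
    intro x hx hxy
    have h1 : ∀ y ∈ O, flipBy (pair inv y₁) e y = e y - if y = x then 2 * e x else 0 := by
      intro y hy
      unfold flipBy pair
      by_cases hyx : y = x
      · rw [if_pos hyx, hyx, if_pos hxy, if_neg one_ne_zero]
        ring
      · rw [if_neg hyx]
        have h2 : ¬ (y = y₁ ∨ y = inv y₁) := by
          intro h3
          have h4 : y = inv x := by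
            rcases hxy with h5 | h5 <;> rcases h3 with h6 | h6
            · exact absurd (h6.trans h5.symm) hyx
            · rw [h6, h5]
            · rw [h6, h5, H]
            · exact absurd (h6.trans h5.symm) hyx
          exact (hO x).1 hx (h4 ▸ hy)
        rw [if_neg h2, if_pos rfl, sub_zero]
    rw [sum_congr rfl h1, sum_sub_distrib, sum_ite_eq', if_pos hx]
  by_cases hy : y₁ ∈ O
  · exact Or.inl (key y₁ hy (Or.inl rfl))
  · have h1 : inv y₁ ∈ O := by
      by_contra h2
      exact hy ((hO y₁).2 h2)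
    right
    rw [key _ h1 (Or.inr rfl), he]
    ring

/-- **One of two functions satisfies no relations.** -/
theorem core [IsPretransitive G Y] (hinv : ∀ y, inv (inv y) = y) (hne : ∀ y, inv y ≠ y)
    (hG : ∀ (g : G) (y : Y), g • inv y = inv (g • y)) (p k : ℕ) (hp : p.Prime)
    (hcard : Fintype.card Y = 2 * p ^ k) (h8 : p = 2 → 8 ≤ p ^ k) (y₁ : Y) :
    ∃ β : Y → ZMod 2, (∀ y, β (inv y) = β y) ∧ ∀ e : Y → ℤ, (∀ y, e (inv y) = -e y) →
      (p = 2 → ∀ y, ¬ (2 : ℤ) ∣ e y) → ¬ (p : ℤ) ∣ e y₁ →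
        Free G inv e ∨ Free G inv (flipBy β e) := by
  classical
  have _ : Fact p.Prime := ⟨hp⟩
  by_cases hp2 : p = 2
  · subst hp2
    have hk : 3 ≤ k := by
      by_contra hk
      have h1 : (2 : ℕ) ^ k ≤ 2 ^ 2 := Nat.pow_le_pow_right (by norm_num) (by omega)
      have h2 := h8 rfl
      omega
    obtain ⟨S⟩ := (inferInstance : Nonempty (Sylow 2 G))
    have hS : IsPGroup 2 S := S.isPGroup'
    have hcard' : Fintype.card Y = 2 ^ (k + 1) := by rw [hcard, pow_succ']
    have _ : IsPretransitive S Y := by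
      refine ⟨fun x y => ?_⟩
      exact Pool.Agent.H925R2.sylow_transitive 2 (k + 1)
        (by rw [Nat.card_eq_fintype_card, hcard']) S x y
    obtain ⟨O, hO⟩ := Pool.Agent.H925R2.exists_isHalf hinv hne
    have H : HalfSystem S inv O := ⟨hinv, fun g y => hG g y, hO⟩
    have _ : Fintype S := Fintype.ofFinite S
    obtain ⟨β, hβ, hmain⟩ := core_two hS H hcard' (by omega)
    refine ⟨β, hβ, fun e he hodd _ => ?_⟩
    rcases hmain e he (hodd rfl) with h1 | h1
    · exact Or.inl fun c hc hrel => h1 c ⟨hc, fun g => hrel g⟩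
    · exact Or.inr fun c hc hrel => h1 c ⟨hc, fun g => hrel g⟩
  · obtain ⟨O, hO, hmain⟩ := core_odd hinv hne hG p k hp2 hcard
    have hpi : ∀ y, pair inv y₁ (inv y) = pair inv y₁ y := by
      intro y
      unfold pair
      have h1 : (inv y = y₁ ∨ inv y = inv y₁) ↔ (y = y₁ ∨ y = inv y₁) := by
        constructor
        · rintro (h1 | h1)
          · exact Or.inr (by rw [← h1, hinv])
          · exact Or.inl (by rw [← hinv y, h1, hinv])
        · rintro (h1 | h1)
          · exact Or.inr (by rw [h1])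
          · exact Or.inl (by rw [h1, hinv])
      simp only [h1]
    refine ⟨pair inv y₁, hpi, fun e he _ hnd => ?_⟩
    by_cases h1 : (p : ℤ) ∣ ∑ y ∈ O, e y
    · refine Or.inr (hmain _ (flipBy_inv hpi he) fun h2 => hnd ?_)
      have hodd : IsCoprime (p : ℤ) 2 := by
        have h16 : Nat.Coprime p 2 := (Nat.coprime_primes hp Nat.prime_two).2 hp2
        exact_mod_cast Nat.isCoprime_iff_coprime.2 h16
      rcases sum_flip_pair hinv hO he y₁ with h3 | h3
      · rw [h3] at h2
        exact hodd.dvd_of_dvd_mul_left ((dvd_sub_right h1).1 h2)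
      · rw [h3] at h2
        exact hodd.dvd_of_dvd_mul_left ((dvd_add_right h1).1 h2)
    · exact Or.inl (hmain e he h1)

end

end Pool.Agent.Q29.EP
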