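import Mathlib
import Pool.Agent.Q29.EP.Odd
import Pool.Agent.Q29.EP.Defs
import Pool.Agent.Q29.OS.Tower
import Pool.Agent.Q29.DP.Laws

/-!
# One half of all types of the CM fields of degree `2 p ^ k`
-/

set_option autoImplicit false
set_option linter.unusedSectionVars false

namespace Pool.Agent.Q29.EP

open NumberField Module MulAction Finset Pool.Agent.H204R3.CM Pool.Agent.H977R3.CM
  Pool.Agent.TH170.CM Pool.Agent.Q29.DP Pool.Agent.Q29.OS

section

variable {E : Type} [Field E] [NumberField E] [IsCMField E]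

/-- The change of a type on a set that is stable under complex conjugation. -/
theorem isCMType_symmDiff {B : Set (E →+* ℂ)}
    (hB : ∀ φ, ComplexEmbedding.conjugate φ ∈ B ↔ φ ∈ B) {Φ : Set (E →+* ℂ)}
    (hΦ : IsCMType Φ) : IsCMType (symmDiff Φ B) := by
  intro φ
  rw [Set.mem_symmDiff, Set.mem_symmDiff, hB]
  have h1 := hΦ φ
  tauto

/-- **One of two types has no relations.** -/
theorem exists_change {M : (E →+* ℂ) → ℤ}
    (hMc : ∀ φ, M (ComplexEmbedding.conjugate φ) = M φ) (hdeg : PrimePowerDegree M) :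
    ∃ B : Set (E →+* ℂ), (∀ φ, ComplexEmbedding.conjugate φ ∈ B ↔ φ ∈ B) ∧
      ∀ Φ : Set (E →+* ℂ), IsCMType Φ → NoRelations M Φ ∨ NoRelations M (symmDiff Φ B) := by
  classical
  obtain ⟨p, k, hp, hdeg, ⟨φ₁, hφ₁⟩, h2⟩ := hdeg
  obtain ⟨L, _, _, j, hj⟩ := exists_galois (fun _ : Unit => E)
  have h : ∀ ψ : E →+* ℂ, ∃ φ : E →+* L, j.comp φ = ψ := hj ()
  have hb : Function.Bijective (fun φ : E →+* L => j.comp φ) :=
    ⟨fun φ φ' hφ => RingHom.ext fun x => j.injective (RingHom.congr_fun hφ x), h⟩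
  let eq : (E →+* L) ≃ (E →+* ℂ) := Equiv.ofBijective _ hb
  have heq : ∀ x : E →+* L, eq x = j.comp x := fun x => rfl
  have hcb : ∀ x : E →+* L, j.comp (cbar x) = ComplexEmbedding.conjugate (j.comp x) := fun x =>
    comp_cbar j x
  have hsmul : ∀ (g : L ≃ₐ[ℚ] L) (τ : ℂ ≃+* ℂ), (∀ x, τ (j x) = j (g x)) → ∀ x : E →+* L,
      (τ : ℂ →+* ℂ).comp (j.comp x) = j.comp (g • x) := by
    intro g τ hg x
    ext y
    exact hg (x y)
  obtain ⟨y₁, hy₁⟩ := h φ₁
  obtain ⟨β, hβ, hmain⟩ := core (G := L ≃ₐ[ℚ] L) (Y := E →+* L) (inv := cbar)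
    (fun x => cbar_cbar x) (fun x => cbar_ne x) (fun g x => rfl) p k hp
    (by rw [card_emb j h, hdeg]) (fun hp2 => (h2 hp2).1) y₁
  let B : Set (E →+* ℂ) := {φ | β (eq.symm φ) = 1}
  have hBj : ∀ x : E →+* L, j.comp x ∈ B ↔ β x = 1 := by
    intro x
    have h1 : eq.symm (j.comp x) = x := eq.symm_apply_apply x
    change β (eq.symm (j.comp x)) = 1 ↔ _
    rw [h1]
  have hB : ∀ φ, ComplexEmbedding.conjugate φ ∈ B ↔ φ ∈ B := by
    intro φ
    obtain ⟨x, rfl⟩ := h φ
    rw [← hcb, hBj, hBj, hβ]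
  -- the translation
  have hfree : ∀ (Ψ : Set (E →+* ℂ)) (e : (E →+* L) → ℤ),
      (∀ x, e x = sgn Ψ (j.comp x) * M (j.comp x)) → Free (L ≃ₐ[ℚ] L) cbar e →
        NoRelations M Ψ := by
    intro Ψ e he hfr c hc hrel
    have h1 := hfr (fun x => c (j.comp x)) (fun x => by rw [hcb, hc]) (fun g => by
      obtain ⟨τ, hτ⟩ := Pool.Agent.H977R3.CM.exists_aut j (g : L ≃+* L)
      rw [← hrel τ]
      refine Fintype.sum_equiv eq _ _ fun x => ?_
      rw [heq, hsmul g τ hτ, he])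
    funext φ
    obtain ⟨x, rfl⟩ := h φ
    exact congrFun h1 x
  refine ⟨B, hB, fun Φ hΦ => ?_⟩
  obtain ⟨e, he⟩ : ∃ e : (E →+* L) → ℤ, ∀ x, e x = sgn Φ (j.comp x) * M (j.comp x) :=
    ⟨_, fun x => rfl⟩
  have hsq := sgn_sq Φ
  rcases hmain e (fun x => by
    rw [he, he, hcb, sgn_conj' hΦ, hMc]
    ring) (fun hp2 x => by
    rw [he]
    have h3 := (h2 hp2).2 (j.comp x)
    rcases hsq (j.comp x) with h4 | h4
    · rw [h4, one_mul, ← even_iff_two_dvd, Int.not_even_iff_odd]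
      exact h3
    · rw [h4, neg_one_mul, dvd_neg, ← even_iff_two_dvd, Int.not_even_iff_odd]
      exact h3) (by
    rw [he, hy₁]
    rcases hsq φ₁ with h4 | h4
    · rw [h4, one_mul]
      exact hφ₁
    · rw [h4, neg_one_mul, dvd_neg]
      exact hφ₁) with h3 | h3
  · exact Or.inl (hfree Φ e he h3)
  · refine Or.inr (hfree _ _ (fun x => ?_) h3)
    unfold flipBy
    have h4 := hBj x
    have h5 : sgn (symmDiff Φ B) (j.comp x) = if β x = 0 then sgn Φ (j.comp x)
        else -sgn Φ (j.comp x) := by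
      unfold sgn
      rcases two_cases (β x) with h6 | h6
      · have h7 : j.comp x ∉ B := by
          rw [h4, h6]
          exact zero_ne_one
        have h8 : j.comp x ∈ symmDiff Φ B ↔ j.comp x ∈ Φ := by
          rw [Set.mem_symmDiff]
          tauto
        rw [if_pos h6, if_congr h8 rfl rfl]
      · have h7 : j.comp x ∈ B := h4.2 h6
        have h8 : j.comp x ∈ symmDiff Φ B ↔ j.comp x ∉ Φ := by
          rw [Set.mem_symmDiff]
          tauto
        have h9 : ¬ β x = 0 := by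
          rw [h6]
          exact one_ne_zero
        rw [if_neg h9, if_congr h8 rfl rfl]
        by_cases h10 : j.comp x ∈ Φ
        · rw [if_neg (not_not.2 h10), if_pos h10]
        · rw [if_pos h10, if_neg h10, neg_neg]
    rw [h5, he]
    split_ifs
    · rfl
    · ring

/-- **At least one half of all types have no relations.** -/
theorem half_noRelations {M : (E →+* ℂ) → ℤ} {g : ℕ}
    (hMc : ∀ φ, M (ComplexEmbedding.conjugate φ) = M φ) (hg : finrank ℚ E = 2 * g)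
    (hdeg : PrimePowerDegree M) :
    2 ^ g ≤ 2 * {Φ : Set (E →+* ℂ) | IsCMType Φ ∧ NoRelations M Φ}.ncard := by
  classical
  obtain ⟨B, hB, hmain⟩ := exists_change hMc hdeg
  rw [← ncard_cmTypes E hg]
  have h1 : {Φ : Set (E →+* ℂ) | IsCMType Φ}.ncard ≤
      {Φ : Set (E →+* ℂ) | IsCMType Φ ∧ NoRelations M Φ}.ncard +
        {Φ : Set (E →+* ℂ) | IsCMType Φ ∧ ¬ NoRelations M Φ}.ncard := by
    refine le_trans (Set.ncard_le_ncard ?_ (Set.toFinite _)) (Set.ncard_union_le _ _)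
    intro Φ hΦ
    by_cases h : NoRelations M Φ
    · exact Or.inl ⟨hΦ, h⟩
    · exact Or.inr ⟨hΦ, h⟩
  have h2 : {Φ : Set (E →+* ℂ) | IsCMType Φ ∧ ¬ NoRelations M Φ}.ncard ≤
      {Φ : Set (E →+* ℂ) | IsCMType Φ ∧ NoRelations M Φ}.ncard := by
    refine Set.ncard_le_ncard_of_injOn (fun Φ => symmDiff Φ B) ?_ ?_ (Set.toFinite _)
    · rintro Φ ⟨h4, h5⟩
      exact ⟨isCMType_symmDiff hB h4, (hmain Φ h4).resolve_left h5⟩
    · intro Φ _ Φ' _ h4
      exact symmDiff_left_injective B h4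
  omega

end

end Pool.Agent.Q29.EP
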