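import Mathlib
import Pool.Agent.Q29.EP.Field
import Pool.Agent.Q29.OS.Law

/-!
# The Hodge conjecture for one of two families of types, and for one half of all types
-/

set_option autoImplicit false
set_option linter.unusedSectionVars false

namespace Pool.Agent.Q29.EP

open NumberField Module MulAction Finset Pool.Agent.H204R3.CM Pool.Agent.H977R3.CM
  Pool.Agent.TH170.CM Pool.Agent.Q29.DP Pool.Agent.Q29.OS

section

variable {E : Type} [Field E] [NumberField E] [IsCMField E]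

/-- Degree `2 p ^ k` with an odd prime number: one place is enough. -/
theorem one_place {M : (E →+* ℂ) → ℤ} (hMc : ∀ φ, M (ComplexEmbedding.conjugate φ) = M φ)
    {p k : ℕ} (hp : p.Prime) (hp2 : p ≠ 2) (hdeg : finrank ℚ E = 2 * p ^ k) {ψ : E →+* ℂ}
    (hψ : ¬ (p : ℤ) ∣ M ψ) {Φ : Set (E →+* ℂ)} (hΦ : IsCMType Φ) :
    NoRelations M Φ ∨ NoRelations M (flip ψ Φ) := by
  classical
  have _ : Fact p.Prime := ⟨hp⟩
  obtain ⟨L, _, _, j, hj⟩ := exists_galois (fun _ : Unit => E)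
  have h : ∀ ψ : E →+* ℂ, ∃ φ : E →+* L, j.comp φ = ψ := hj ()
  have hb : Function.Bijective (fun φ : E →+* L => j.comp φ) :=
    ⟨fun φ φ' hφ => RingHom.ext fun x => j.injective (RingHom.congr_fun hφ x), h⟩
  let eq : (E →+* L) ≃ (E →+* ℂ) := Equiv.ofBijective _ hb
  have heq : ∀ x : E →+* L, eq x = j.comp x := fun x => rfl
  have hcb : ∀ x : E →+* L, j.comp (cbar x) = ComplexEmbedding.conjugate (j.comp x) := fun x =>
    comp_cbar j x
  have hsmul : ∀ (g : L ≃ₐ[ℚ] L) (τ : ℂ ≃+* ℂ), (∀ x, τ (j x) = j (g x)) → ∀ x : E →+* L,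
      (τ : ℂ →+* ℂ).comp (j.comp x) = j.comp (g • x) := by
    intro g τ hg x
    ext y
    exact hg (x y)
  obtain ⟨y₁, hy₁⟩ := h ψ
  obtain ⟨O, hO, hmain⟩ := core_odd (G := L ≃ₐ[ℚ] L) (Y := E →+* L) (inv := cbar)
    (fun x => cbar_cbar x) (fun x => cbar_ne x) (fun g x => rfl) p k hp2
    (by rw [card_emb j h, hdeg])
  have hfree : ∀ (Ψ : Set (E →+* ℂ)), IsCMType Ψ →
      ¬ (p : ℤ) ∣ ∑ y ∈ O, sgn Ψ (j.comp y) * M (j.comp y) → NoRelations M Ψ := by
    intro Ψ hΨ hnd c hc hrel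
    have h1 := hmain (fun x => sgn Ψ (j.comp x) * M (j.comp x)) (fun x => by
      rw [hcb, sgn_conj' hΨ, hMc]
      ring) hnd (fun x => c (j.comp x)) (fun x => by rw [hcb, hc]) (fun g => by
      obtain ⟨τ, hτ⟩ := Pool.Agent.H977R3.CM.exists_aut j (g : L ≃+* L)
      rw [← hrel τ]
      refine Fintype.sum_equiv eq _ _ fun x => ?_
      rw [heq, hsmul g τ hτ])
    funext φ
    obtain ⟨x, rfl⟩ := h φ
    exact congrFun h1 x
  by_cases h1 : (p : ℤ) ∣ ∑ y ∈ O, sgn Φ (j.comp y) * M (j.comp y)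
  · refine Or.inr (hfree _ (isCMType_flip ψ hΦ) fun h2 => hψ ?_)
    have hodd : IsCoprime (p : ℤ) 2 := by
      have h16 : Nat.Coprime p 2 := (Nat.coprime_primes hp Nat.prime_two).2 hp2
      exact_mod_cast Nat.isCoprime_iff_coprime.2 h16
    have hflip : ∀ y : E →+* L, sgn (flip ψ Φ) (j.comp y) * M (j.comp y) =
        flipBy (pair cbar y₁) (fun x => sgn Φ (j.comp x) * M (j.comp x)) y := by
      intro y
      have hinj : ∀ a b : E →+* L, j.comp a = j.comp b ↔ a = b := fun a b =>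
        ⟨fun hab => hb.1 hab, fun hab => by rw [hab]⟩
      have h3 : (j.comp y = ψ ∨ j.comp y = ComplexEmbedding.conjugate ψ) ↔
          (y = y₁ ∨ y = cbar y₁) := by
        rw [← hy₁, ← hcb, hinj, hinj]
      unfold flipBy pair
      by_cases h4 : y = y₁ ∨ y = cbar y₁
      · rw [if_pos h4, if_neg one_ne_zero]
        have h5 : sgn (flip ψ Φ) (j.comp y) = -sgn Φ (j.comp y) := by
          unfold sgn
          rw [mem_flip, if_pos (h3.2 h4)]
          by_cases h6 : j.comp y ∈ Φ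
          · rw [if_neg (not_not.2 h6), if_pos h6]
          · rw [if_pos h6, if_neg h6, neg_neg]
        rw [h5]
        ring
      · rw [if_neg h4, if_pos rfl]
        have h5 : sgn (flip ψ Φ) (j.comp y) = sgn Φ (j.comp y) := by
          unfold sgn
          rw [mem_flip, if_neg (fun h6 => h4 (h3.1 h6))]
        rw [h5]
    rw [sum_congr rfl fun y _ => hflip y] at h2
    have he : ∀ y : E →+* L, sgn Φ (j.comp (cbar y)) * M (j.comp (cbar y)) =
        -(sgn Φ (j.comp y) * M (j.comp y)) := by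
      intro y
      rw [hcb, sgn_conj' hΦ, hMc]
      ring
    have h6 : (p : ℤ) ∣ sgn Φ (j.comp y₁) * M (j.comp y₁) := by
      rcases sum_flip_pair (inv := cbar) (e := fun x : E →+* L => sgn Φ (j.comp x) * M (j.comp x))
        (fun x : E →+* L => cbar_cbar x) hO he y₁ with h3 | h3
      · rw [h3] at h2
        exact hodd.dvd_of_dvd_mul_left ((dvd_sub_right h1).1 h2)
      · rw [h3] at h2
        exact hodd.dvd_of_dvd_mul_left ((dvd_add_right h1).1 h2)
    rw [hy₁] at h6
    rcases sgn_sq Φ ψ with h7 | h7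
    · rw [h7, one_mul] at h6
      exact h6
    · rw [h7, neg_one_mul] at h6
      exact (dvd_neg).1 h6
  · exact Or.inl (hfree Φ hΦ h1)

end

section

variable {ι : Type} [Fintype ι] {E : ι → Type} [∀ i, Field (E i)] [∀ i, NumberField (E i)]
  [∀ i, IsCMField (E i)] {m : ι → ℕ} {M : ∀ i, (E i →+* ℂ) → ℤ}

/-- **One of `2 ^ s` families of types, for `s` fields.** -/
theorem law_change (hind : PairwiseIndep E) {d : ι → ℤ}
    (hadm : ∀ i, Admissible (m i) (fun φ => d i * M i φ))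
    (hdeg : ∀ i, PrimePowerDegree (M i)) :
    ∃ B : ∀ i, Set (E i →+* ℂ), (∀ i φ, ComplexEmbedding.conjugate φ ∈ B i ↔ φ ∈ B i) ∧
      ∀ Φ : ∀ i, Set (E i →+* ℂ), (∀ i, IsCMType (Φ i)) →
        ∃ J : Set ι, Law E m (fun i φ => d i * M i φ) (change B Φ J) := by
  classical
  choose B hB hmain using fun i => exists_change (factor_of_admissible (hadm i)).2 (hdeg i)
  refine ⟨B, hB, fun Φ hΦ => ⟨{i | ¬ NoRelations (M i) (Φ i)}, ?_⟩⟩
  refine law_of_noRelations hind (fun i => ?_) hadm fun i => ?_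
  · unfold change
    split_ifs
    · exact isCMType_symmDiff (hB i) (hΦ i)
    · exact hΦ i
  · have h1 : NoRelations (M i) (change B Φ {i | ¬ NoRelations (M i) (Φ i)} i) := by
      unfold change
      split_ifs with h
      · exact (hmain i (Φ i) (hΦ i)).resolve_left h
      · exact not_not.1 h
    exact h1.mul (factor_of_admissible (hadm i)).1

/-- **One half of all types.** -/
theorem law_half (hind : PairwiseIndep E) {d : ι → ℤ} {g : ι → ℕ}
    (hadm : ∀ i, Admissible (m i) (fun φ => d i * M i φ))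
    (hg : ∀ i, finrank ℚ (E i) = 2 * g i) (hdeg : ∀ i, PrimePowerDegree (M i)) :
    2 ^ (∑ i, g i) ≤ 2 ^ Fintype.card ι * {Φ : ∀ i, Set (E i →+* ℂ) | (∀ i, IsCMType (Φ i)) ∧
      Law E m (fun i φ => d i * M i φ) Φ}.ncard := by
  refine le_trans ?_ (Nat.mul_le_mul_left _ (prod_le_law hind hadm))
  calc 2 ^ (∑ i, g i) = ∏ i, 2 ^ g i := (prod_pow_eq_pow_sum _ _ _).symm
    _ ≤ ∏ i, 2 * {Φ : Set (E i →+* ℂ) | IsCMType Φ ∧
        NoRelations (fun φ => d i * M i φ) Φ}.ncard := by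
      refine prod_le_prod' fun i _ => ?_
      obtain ⟨hd, hMc⟩ := factor_of_admissible (hadm i)
      refine (half_noRelations hMc (hg i) (hdeg i)).trans (Nat.mul_le_mul_left 2
        (Set.ncard_le_ncard ?_ (Set.toFinite _)))
      rintro Φ ⟨h1, h2⟩
      exact ⟨h1, h2.mul hd⟩
    _ = _ := by rw [prod_mul_distrib, prod_const, card_univ]

end

end Pool.Agent.Q29.EP
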