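import Mathlib

/-!
# The number of the subsets of an odd number of places whose size is divisible by a prime number
-/

set_option autoImplicit false

namespace Pool.Agent.Q29.EP

open Finset

/-- The number of the walks with `n` steps `± 1` on the integers modulo `q` from zero to `x`. -/
def walks (q : ℤ) : ℕ → ℤ → ℕ
  | 0, x => if q ∣ x then 1 else 0
  | n + 1, x => walks q n (x - 1) + walks q n (x + 1)

theorem walks_zero (q x : ℤ) : walks q 0 x = if q ∣ x then 1 else 0 := rfl

theorem walks_succ (q : ℤ) (n : ℕ) (x : ℤ) :
    walks q (n + 1) x = walks q n (x - 1) + walks q n (x + 1) := rfl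

theorem walks_neg (q : ℤ) (n : ℕ) : ∀ x, walks q n (-x) = walks q n x := by
  induction n with
  | zero =>
    intro x
    simp only [walks_zero, dvd_neg]
  | succ n ih =>
    intro x
    rw [walks_succ, walks_succ, add_comm]
    have h1 : -x + 1 = -(x - 1) := by ring
    have h2 : -x - 1 = -(x + 1) := by ring
    rw [h1, h2, ih, ih]

theorem walks_add (q : ℤ) (n : ℕ) : ∀ x, walks q n (x + q) = walks q n x := by
  induction n with
  | zero =>
    intro x
    simp only [walks_zero, dvd_add_self_right]
  | succ n ih =>
    intro x
    rw [walks_succ, walks_succ]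
    have h1 : x + q - 1 = (x - 1) + q := by ring
    have h2 : x + q + 1 = (x + 1) + q := by ring
    rw [h1, h2, ih, ih]

theorem walks_mul (q : ℤ) (n : ℕ) (x : ℤ) (a : ℕ) : walks q n (x + a * q) = walks q n x := by
  induction a with
  | zero => simp
  | succ a ih =>
    have h1 : x + ((a + 1 : ℕ) : ℤ) * q = (x + a * q) + q := by
      push_cast
      ring
    rw [h1, walks_add, ih]

theorem walks_mod (q : ℤ) (n : ℕ) (x a : ℤ) : walks q n (x + a * q) = walks q n x := by
  rcases Int.eq_nat_or_neg a with ⟨b, hb | hb⟩
  · rw [hb, walks_mul]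
  · have h1 := walks_mul q n (x + a * q) b
    rw [hb] at h1 ⊢
    rw [← h1]
    congr 1
    ring

/-- The number of the walks decreases with the distance from zero. -/
theorem walks_step {p : ℤ} (hp : 3 ≤ p) (n : ℕ) :
    ∀ x, 0 ≤ x → x + 2 ≤ p → walks (2 * p) n (x + 2) ≤ walks (2 * p) n x := by
  induction n with
  | zero =>
    intro x hx hxp
    simp only [walks_zero]
    have h1 : ¬ 2 * p ∣ x + 2 := by
      intro h
      have h2 := Int.le_of_dvd (by omega) h
      omega
    rw [if_neg h1]
    exact Nat.zero_le _
  | succ n ih =>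
    intro x hx hxp
    rw [walks_succ, walks_succ]
    have h1 : x + 2 - 1 = x + 1 := by ring
    rw [h1, add_comm (walks (2 * p) n (x + 1))]
    refine Nat.add_le_add_right ?_ _
    have h2 : x + 2 + 1 = x + 3 := by ring
    rw [h2]
    -- the case `x = 0`
    have h3 : walks (2 * p) n (x + 1) ≤ walks (2 * p) n (x - 1) := by
      rcases eq_or_lt_of_le hx with h | h
      · rw [← h]
        have h4 : (0 : ℤ) - 1 = -(0 + 1) := by ring
        rw [h4, walks_neg]
      · have h4 := ih (x - 1) (by omega) (by omega)
        have h5 : x - 1 + 2 = x + 1 := by ring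
        rw [h5] at h4
        exact h4
    refine le_trans ?_ h3
    rcases lt_or_ge p (x + 3) with h | h
    · have h4 : x + 3 = -(x + 1) + 2 * p := by omega
      rw [h4, walks_add, walks_neg]
    · have h4 := ih (x + 1) (by omega) (by omega)
      have h5 : x + 1 + 2 = x + 3 := by ring
      rw [h5] at h4
      exact h4

/-- The smallest number of walks leads to the opposite point. -/
theorem walks_le {p : ℤ} (hp : 3 ≤ p) (hodd : Odd p) (n : ℕ) (x : ℤ) (hx : Odd x) :
    walks (2 * p) n p ≤ walks (2 * p) n x := by
  -- small arguments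
  have h1 : ∀ (a : ℕ) (x : ℤ), 0 ≤ x → x + 2 * a = p →
      walks (2 * p) n p ≤ walks (2 * p) n x := by
    intro a
    induction a with
    | zero =>
      intro x _ h
      rw [← h]
      simp
    | succ a ih =>
      intro x hx h
      push_cast at h
      exact (ih (x + 2) (by omega) (by omega)).trans
        (walks_step hp n x hx (by omega))
  have h2 : ∀ x : ℤ, 0 ≤ x → x ≤ p → Odd x → walks (2 * p) n p ≤ walks (2 * p) n x := by
    intro x hx hxp hxo
    obtain ⟨u, hu⟩ := hodd
    obtain ⟨v, hv⟩ := hxo
    exact h1 (u - v).toNat x hx (by omega)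
  have h3 : x = x % (2 * p) + (x / (2 * p)) * (2 * p) := by
    have := Int.emod_add_mul_ediv x (2 * p)
    linarith
  have h4 : 0 ≤ x % (2 * p) := Int.emod_nonneg _ (by omega)
  have h5 : x % (2 * p) < 2 * p := Int.emod_lt_of_pos _ (by omega)
  have h6 : Odd (x % (2 * p)) := by
    have h7 : x % (2 * p) = x - 2 * (p * (x / (2 * p))) := by linarith
    rw [h7]
    exact hx.sub_even (even_two_mul _)
  rw [h3, walks_mod]
  rcases le_or_gt (x % (2 * p)) p with h | h
  · exact h2 _ h4 h h6
  · have h7 : walks (2 * p) n (x % (2 * p)) = walks (2 * p) n (2 * p - x % (2 * p)) := by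
      rw [← walks_neg, ← walks_add]
      congr 1
      ring
    rw [h7]
    exact h2 _ (by omega) (by omega) ((even_two_mul p).sub_odd h6)

/-- The number of all walks. -/
theorem walks_total (p n : ℕ) (hp : 0 < p) :
    ∑ i ∈ range p, walks (2 * p) n (n + 2 * i) = 2 ^ n := by
  induction n with
  | zero =>
    rw [pow_zero, sum_eq_single 0]
    · simp [walks_zero]
    · intro i hi hi0
      rw [mem_range] at hi
      rw [walks_zero, if_neg]
      intro h
      have h1 := Int.le_of_dvd (by push_cast; omega) h
      push_cast at h1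
      omega
    · intro h
      exact absurd (mem_range.2 hp) h
  | succ n ih =>
    have h1 : ∀ i : ℕ, walks (2 * p) (n + 1) (((n + 1 : ℕ) : ℤ) + 2 * i) =
        walks (2 * p) n (n + 2 * i) + walks (2 * p) n (n + 2 * (i + 1 : ℕ)) := by
      intro i
      rw [walks_succ]
      congr 2 <;>
      · push_cast
        ring
    rw [sum_congr rfl fun i _ => h1 i, sum_add_distrib, ih]
    have h2 : ∑ i ∈ range p, walks (2 * p) n (n + 2 * (i + 1 : ℕ)) = 2 ^ n := by
      rw [← ih]
      have h3 := sum_range_succ' (fun i : ℕ => walks (2 * p) n (n + 2 * i)) p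
      have h4 := sum_range_succ (fun i : ℕ => walks (2 * p) n (n + 2 * i)) p
      have h5 : walks (2 * p) n (n + 2 * (p : ℕ)) = walks (2 * p) n (n + 2 * (0 : ℕ)) := by
        have h6 : (n : ℤ) + 2 * (p : ℕ) = (n + 2 * (0 : ℕ)) + 2 * p := by
          push_cast
          ring
        rw [h6, walks_add]
      rw [h4, h5] at h3
      exact (Nat.add_right_cancel h3).symm
    rw [h2, pow_succ]
    ring

theorem walks_opposite {p n : ℕ} (hp : 3 ≤ p) (hodd : Odd p) (hn : Odd n) :
    p * walks (2 * p) n p ≤ 2 ^ n := by
  rw [← walks_total p n (by omega)]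
  calc p * walks (2 * p) n p = ∑ _i ∈ range p, walks (2 * p) n p := by
        rw [sum_const, card_range, smul_eq_mul]
    _ ≤ _ := sum_le_sum fun i _ => walks_le (by exact_mod_cast hp) (by exact_mod_cast hodd) n _
        (by
          have h1 : Odd (n : ℤ) := by exact_mod_cast hn
          exact h1.add_even (even_two_mul _))

/-- The number of the subsets. -/
theorem card_subsets {X : Type*} [DecidableEq X] (q : ℤ) (O : Finset X) : ∀ x : ℤ,
    (O.powerset.filter (fun S => q ∣ (O.card : ℤ) - 2 * S.card - x)).card = walks q O.card x := by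
  induction O using Finset.induction_on with
  | empty =>
    intro x
    rw [powerset_empty, filter_singleton, card_empty, walks_zero]
    simp only [Nat.cast_zero, mul_zero, sub_zero, zero_sub, dvd_neg]
    split_ifs <;> simp
  | insert a O ha ih =>
    intro x
    rw [powerset_insert, card_insert_of_notMem ha, walks_succ, filter_union, card_union_of_disjoint]
    · rw [← ih, ← ih]
      congr 1
      · congr 1
        refine filter_congr fun S _ => ?_
        push_cast
        ring_nf
      · rw [filter_image, card_image_of_injOn]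
        · congr 1
          refine filter_congr fun S hS => ?_
          have h1 : a ∉ S := fun h => ha (mem_powerset.1 hS h)
          rw [card_insert_of_notMem h1]
          push_cast
          ring_nf
        · intro S hS T hT h
          have hS' := mem_of_mem_filter S hS
          have hT' := mem_of_mem_filter T hT
          have h1 : a ∉ S := fun h => ha (mem_powerset.1 hS' h)
          have h2 : a ∉ T := fun h => ha (mem_powerset.1 hT' h)
          have h3 : insert a S = insert a T := h
          rw [← erase_insert h1, h3, erase_insert h2]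
    · rw [disjoint_left]
      intro S hS hS'
      have h1 := mem_of_mem_filter S hS
      have h2 := mem_of_mem_filter S hS'
      obtain ⟨T, hT, rfl⟩ := mem_image.1 h2
      exact ha (mem_powerset.1 h1 (mem_insert_self a T))

/-- **The number of the subsets whose size is divisible by `p`.** -/
theorem card_dvd {X : Type*} [DecidableEq X] (O : Finset X) {p k : ℕ} (hp : p.Prime)
    (hp2 : p ≠ 2) (hO : O.card = p ^ (k + 1)) :
    p * (O.powerset.filter (fun S => p ∣ S.card)).card ≤ 2 ^ O.card := by
  have hodd : Odd p := hp.odd_of_ne_two hp2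
  have h3 : 3 ≤ p := by
    have := hp.two_le
    omega
  have h1 : (O.powerset.filter (fun S => p ∣ S.card)).card = walks (2 * p) O.card p := by
    rw [← card_subsets]
    congr 1
    refine filter_congr fun S _ => ?_
    rw [hO]
    have h2 : (2 * (p : ℤ)) ∣ ((p ^ (k + 1) : ℕ) : ℤ) - p := by
      have h4 : Odd ((p : ℤ) ^ k) := by
        have : Odd (p : ℤ) := by exact_mod_cast hodd
        exact this.pow
      obtain ⟨c, hc⟩ := h4
      refine ⟨c, ?_⟩
      push_cast
      rw [pow_succ, hc]
      ring
    have h4 : ((p ^ (k + 1) : ℕ) : ℤ) - 2 * S.card - p =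
        (((p ^ (k + 1) : ℕ) : ℤ) - p) - 2 * S.card := by ring
    rw [h4, dvd_sub_right h2]
    constructor
    · rintro ⟨c, hc⟩
      refine ⟨c, ?_⟩
      push_cast [hc]
      ring
    · rintro ⟨c, hc⟩
      have h5 : (2 : ℤ) * S.card = 2 * (p * c) := by
        rw [hc]
        ring
      have h6 := mul_left_cancel₀ two_ne_zero h5
      have h7 : (p : ℤ) ∣ (S.card : ℤ) := ⟨c, h6⟩
      exact_mod_cast h7
  rw [h1]
  exact walks_opposite h3 hodd (by rw [hO]; exact hodd.pow)

end Pool.Agent.Q29.EP
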