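import Mathlib
import Pool.Agent.Q29.EP.Law
import Pool.Agent.Q29.EP.Walks

/-!
# A proportion of `1 - 1 / p` of all CM types of the CM fields of degree `2 p ^ k`
-/

set_option autoImplicit false
set_option linter.unusedSectionVars false

namespace Pool.Agent.Q29.EP

open NumberField Module MulAction Finset Pool.Agent.H204R3.CM Pool.Agent.H977R3.CM
  Pool.Agent.TH170.CM Pool.Agent.Q29.DP Pool.Agent.Q29.OS Pool.Agent.Y1.HZ

section

variable {E : Type} [Field E] [NumberField E] [IsCMField E]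

/-- The degenerate CM types of a CM field of degree `2 p ^ k`, `p` odd. -/
theorem odd_degenerate {p k : ℕ} (hp : p.Prime) (hp2 : p ≠ 2)
    (hdeg : finrank ℚ E = 2 * p ^ k) :
    p * {Φ : Set (E →+* ℂ) | IsCMType Φ ∧ ¬ NoRelations (fun _ => 1) Φ}.ncard ≤ 2 ^ (p ^ k) := by
  classical
  have _ : Fact p.Prime := ⟨hp⟩
  obtain ⟨L, _, _, j, hj⟩ := exists_galois (fun _ : Unit => E)
  have h : ∀ ψ : E →+* ℂ, ∃ φ : E →+* L, j.comp φ = ψ := hj ()
  have hb : Function.Bijective (fun φ : E →+* L => j.comp φ) :=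
    ⟨fun φ φ' hφ => RingHom.ext fun x => j.injective (RingHom.congr_fun hφ x), h⟩
  let eq : (E →+* L) ≃ (E →+* ℂ) := Equiv.ofBijective _ hb
  have heq : ∀ x : E →+* L, eq x = j.comp x := fun x => rfl
  have hcb : ∀ x : E →+* L, j.comp (cbar x) = ComplexEmbedding.conjugate (j.comp x) := fun x =>
    comp_cbar j x
  have hsmul : ∀ (g : L ≃ₐ[ℚ] L) (τ : ℂ ≃+* ℂ), (∀ x, τ (j x) = j (g x)) → ∀ x : E →+* L,
      (τ : ℂ →+* ℂ).comp (j.comp x) = j.comp (g • x) := by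
    intro g τ hg x
    ext y
    exact hg (x y)
  have hcardY : Fintype.card (E →+* L) = 2 * p ^ k := by rw [card_emb j h, hdeg]
  obtain ⟨O, hO, hmain⟩ := core_odd (G := L ≃ₐ[ℚ] L) (Y := E →+* L) (inv := cbar)
    (fun x => cbar_cbar x) (fun x => cbar_ne x) (fun g x => rfl) p k hp2 hcardY
  have hcardO : O.card = p ^ k := by
    have h1 := sum_half (cbar : (E →+* L) → (E →+* L)) (fun x => cbar_cbar x) O hO (fun _ => 1)
      (fun _ => rfl)
    simp only [sum_const, nsmul_eq_mul, mul_one, card_univ] at h1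
    rw [hcardY] at h1
    have h2 : 2 * p ^ k = 2 * O.card := by exact_mod_cast h1
    omega
  have hfree : ∀ (Ψ : Set (E →+* ℂ)), IsCMType Ψ →
      ¬ (p : ℤ) ∣ ∑ y ∈ O, sgn Ψ (j.comp y) → NoRelations (fun _ => 1) Ψ := by
    intro Ψ hΨ hnd c hc hrel
    have h1 := hmain (fun x => sgn Ψ (j.comp x)) (fun x => by
      rw [hcb, sgn_conj' hΨ]) hnd (fun x => c (j.comp x)) (fun x => by rw [hcb, hc]) (fun g => by
      obtain ⟨τ, hτ⟩ := Pool.Agent.H977R3.CM.exists_aut j (g : L ≃+* L)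
      rw [← hrel τ]
      refine Fintype.sum_equiv eq _ _ fun x => ?_
      rw [heq, hsmul g τ hτ, mul_one])
    funext φ
    obtain ⟨x, rfl⟩ := h φ
    exact congrFun h1 x
  let S : Set (E →+* ℂ) → Finset (E →+* L) := fun Φ => O.filter (fun y => j.comp y ∈ Φ)
  have hsum : ∀ Φ : Set (E →+* ℂ), ∑ y ∈ O, sgn Φ (j.comp y) = 2 * (S Φ).card - O.card := by
    intro Φ
    have h1 : ∀ y : E →+* L, sgn Φ (j.comp y) = 2 * (if j.comp y ∈ Φ then 1 else 0) - 1 := by
      intro y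
      unfold sgn
      split_ifs <;> ring
    rw [sum_congr rfl fun y _ => h1 y, sum_sub_distrib, ← mul_sum, sum_boole, sum_const,
      nsmul_eq_mul, mul_one]
  have hinj : Set.InjOn S {Φ : Set (E →+* ℂ) | IsCMType Φ ∧ ¬ NoRelations (fun _ => 1) Φ} := by
    rintro Φ ⟨hΦ, -⟩ Ψ ⟨hΨ, -⟩ hS
    have h1 : ∀ y ∈ O, (j.comp y ∈ Φ ↔ j.comp y ∈ Ψ) := by
      intro y hy
      have h2 : y ∈ S Φ ↔ y ∈ S Ψ := by rw [hS]
      simp only [S, mem_filter, hy, true_and] at h2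
      exact h2
    ext φ
    obtain ⟨y, rfl⟩ := h φ
    by_cases hy : y ∈ O
    · exact h1 y hy
    · have h2 : cbar y ∈ O := by
        by_contra h3
        exact hy ((hO y).2 h3)
      have h3 := h1 _ h2
      rw [hcb] at h3
      have h4 := hΦ (j.comp y)
      have h5 := hΨ (j.comp y)
      tauto
  rcases Nat.eq_zero_or_pos k with hk | hk
  · -- degree two
    subst hk
    have h1 : {Φ : Set (E →+* ℂ) | IsCMType Φ ∧ ¬ NoRelations (fun _ => 1) Φ} = ∅ := by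
      rw [Set.eq_empty_iff_forall_notMem]
      rintro Φ ⟨hΦ, hno⟩
      refine hno (hfree Φ hΦ fun hdvd => ?_)
      rw [hsum, hcardO, pow_zero] at hdvd
      have h2 : (S Φ).card ≤ 1 := by
        rw [pow_zero] at hcardO
        rw [← hcardO]
        exact card_filter_le _ _
      have h3 : Int.natAbs (2 * ((S Φ).card : ℤ) - ((1 : ℕ) : ℤ)) = 1 := by omega
      have h4 := Int.natAbs_dvd_natAbs.2 hdvd
      rw [h3, Int.natAbs_natCast] at h4
      exact hp.one_lt.ne' (Nat.dvd_one.1 h4)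
    rw [h1, Set.ncard_empty, mul_zero]
    exact Nat.zero_le _
  · obtain ⟨k', rfl⟩ := Nat.exists_eq_add_of_le' hk
    rw [← hcardO]
    refine le_trans ?_ (card_dvd O hp hp2 hcardO)
    refine Nat.mul_le_mul_left p ?_
    rw [← Set.ncard_coe_finset]
    refine Set.ncard_le_ncard_of_injOn S ?_ hinj (Finset.finite_toSet _)
    rintro Φ ⟨hΦ, hno⟩
    rw [mem_coe, mem_filter, mem_powerset]
    refine ⟨filter_subset _ _, ?_⟩
    by_contra hnd
    refine hno (hfree Φ hΦ fun hdvd => hnd ?_)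
    rw [hsum, hcardO] at hdvd
    have h1 : (p : ℤ) ∣ ((p ^ (k' + 1) : ℕ) : ℤ) := by
      exact_mod_cast dvd_pow_self p (Nat.succ_ne_zero k')
    have h2 : (p : ℤ) ∣ 2 * ((S Φ).card : ℤ) := by
      have h3 := dvd_add hdvd h1
      rwa [sub_add_cancel] at h3
    have hodd : IsCoprime (p : ℤ) 2 := by
      have h16 : Nat.Coprime p 2 := (Nat.coprime_primes hp Nat.prime_two).2 hp2
      exact_mod_cast Nat.isCoprime_iff_coprime.2 h16
    exact_mod_cast hodd.dvd_of_dvd_mul_left h2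

/-- **A proportion of at least `1 - 1 / p` of all CM types has no relations.** -/
theorem proportion {p k : ℕ} (hp : p.Prime) (hdeg : finrank ℚ E = 2 * p ^ k)
    (h8 : p = 2 → 8 ≤ p ^ k) :
    (1 - 1 / (p : ℝ)) * 2 ^ (p ^ k) ≤
      (({Φ : Set (E →+* ℂ) | IsCMType Φ ∧ NoRelations (fun _ => 1) Φ}.ncard : ℕ) : ℝ) := by
  classical
  have hp0 : (0 : ℝ) < p := by exact_mod_cast hp.pos
  by_cases hp2 : p = 2
  · have h1 := half_noRelations (E := E) (M := fun _ => 1) (g := p ^ k) (fun _ => rfl) hdeg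
      ⟨p, k, hp, hdeg, ⟨(inferInstance : Nonempty (E →+* ℂ)).some, by
        intro h2
        have h3 := Int.natAbs_dvd_natAbs.2 h2
        rw [Int.natAbs_natCast, Int.natAbs_one] at h3
        exact hp.one_lt.ne' (Nat.dvd_one.1 h3)⟩, fun h2 => ⟨h8 h2, fun _ => odd_one⟩⟩
    have h2 : ((2 : ℝ) ^ (p ^ k)) ≤ 2 *
        (({Φ : Set (E →+* ℂ) | IsCMType Φ ∧ NoRelations (fun _ => 1) Φ}.ncard : ℕ) : ℝ) := by
      exact_mod_cast h1
    rw [hp2] at h2 ⊢
    push_cast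
    linarith
  · have h1 := odd_degenerate hp hp2 hdeg
    have h2 : {Φ : Set (E →+* ℂ) | IsCMType Φ}.ncard ≤
        {Φ : Set (E →+* ℂ) | IsCMType Φ ∧ NoRelations (fun _ => 1) Φ}.ncard +
          {Φ : Set (E →+* ℂ) | IsCMType Φ ∧ ¬ NoRelations (fun _ => 1) Φ}.ncard := by
      refine le_trans (Set.ncard_le_ncard ?_ (Set.toFinite _)) (Set.ncard_union_le _ _)
      intro Φ hΦ
      by_cases h : NoRelations (fun _ => 1) Φ
      · exact Or.inl ⟨hΦ, h⟩
      · exact Or.inr ⟨hΦ, h⟩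
    rw [ncard_cmTypes E hdeg] at h2
    have h3 : (p : ℝ) *
        (({Φ : Set (E →+* ℂ) | IsCMType Φ ∧ ¬ NoRelations (fun _ => 1) Φ}.ncard : ℕ) : ℝ) ≤
          2 ^ (p ^ k) := by exact_mod_cast h1
    have h4 : (2 : ℝ) ^ (p ^ k) ≤
        (({Φ : Set (E →+* ℂ) | IsCMType Φ ∧ NoRelations (fun _ => 1) Φ}.ncard : ℕ) : ℝ) +
          (({Φ : Set (E →+* ℂ) | IsCMType Φ ∧ ¬ NoRelations (fun _ => 1) Φ}.ncard : ℕ) : ℝ) := by
      exact_mod_cast h2
    have h5 : (({Φ : Set (E →+* ℂ) | IsCMType Φ ∧ ¬ NoRelations (fun _ => 1) Φ}.ncard : ℕ) : ℝ) ≤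
        2 ^ (p ^ k) / p := by
      rw [le_div_iff₀ hp0, mul_comm]
      exact h3
    have h6 : (1 - 1 / (p : ℝ)) * 2 ^ (p ^ k) = 2 ^ (p ^ k) - 2 ^ (p ^ k) / p := by ring
    rw [h6]
    linarith

end

/-- **Families of CM types.** -/
theorem law_proportion {ι : Type} [Fintype ι] {E : ι → Type} [∀ i, Field (E i)]
    [∀ i, NumberField (E i)] [∀ i, IsCMField (E i)] (hind : PairwiseIndep E) {p k : ι → ℕ}
    (hp : ∀ i, (p i).Prime) (hdeg : ∀ i, finrank ℚ (E i) = 2 * p i ^ k i)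
    (h8 : ∀ i, p i = 2 → 8 ≤ p i ^ k i) :
    (∏ i, (1 - 1 / (p i : ℝ))) * 2 ^ (∑ i, p i ^ k i) ≤
      (({Φ : ∀ i, Set (E i →+* ℂ) | (∀ i, IsCMType (Φ i)) ∧
        Law E (fun _ => 1) (fun _ _ => 1) Φ}.ncard : ℕ) : ℝ) := by
  classical
  have hadm : ∀ i, Admissible (E := E i) 1 (fun _ => 1) := by
    intro i
    refine ⟨fun φ => ⟨one_pos, le_rfl, ⟨1, rfl⟩, rfl⟩, ?_, Or.inl rfl⟩
    exact ⟨(inferInstance : Nonempty (E i →+* ℂ)).some, by norm_num⟩
  refine le_trans ?_ (Nat.cast_le.2 (prod_le_law (m := fun _ => 1) (M := fun _ _ => 1) hind hadm))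
  rw [Nat.cast_prod]
  calc (∏ i, (1 - 1 / (p i : ℝ))) * 2 ^ (∑ i, p i ^ k i) =
      ∏ i, (1 - 1 / (p i : ℝ)) * 2 ^ (p i ^ k i) := by
        rw [prod_mul_distrib, prod_pow_eq_pow_sum]
    _ ≤ _ := by
      refine prod_le_prod (fun i _ => ?_) fun i _ => proportion (hp i) (hdeg i) (h8 i)
      have h1 : (1 : ℝ) ≤ p i := by exact_mod_cast (hp i).one_lt.le
      have h2 : 1 / (p i : ℝ) ≤ 1 := by
        rw [div_le_one (by linarith)]
        exact h1
      have h3 : (0 : ℝ) ≤ 1 - 1 / (p i : ℝ) := by linarith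
      positivity

theorem flip_eq {E : Type} [Field E] [NumberField E] [IsCMField E] (ψ : E →+* ℂ)
    (Φ : Set (E →+* ℂ)) : flip ψ Φ = symmDiff Φ {ψ, ComplexEmbedding.conjugate ψ} := by
  classical
  ext φ
  rw [mem_flip, Set.mem_symmDiff, Set.mem_insert_iff, Set.mem_singleton_iff]
  split_ifs with h
  · tauto
  · tauto

/-- **One of two types that differ at one place.** -/
theorem law_one_place {E : Type} [Field E] [NumberField E] [IsCMField E] {p k m : ℕ} {d : ℤ}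
    {M : (E →+* ℂ) → ℤ} {ψ : E →+* ℂ} {Φ : Set (E →+* ℂ)} (hp : p.Prime) (hp2 : p ≠ 2)
    (hdeg : finrank ℚ E = 2 * p ^ k) (hadm : Admissible m (fun φ => d * M φ))
    (hψ : ¬ (p : ℤ) ∣ M ψ) (hΦ : IsCMType Φ) :
    Law (fun _ : Unit => E) (fun _ => m) (fun _ φ => d * M φ) (fun _ => Φ) ∨
      Law (fun _ : Unit => E) (fun _ => m) (fun _ φ => d * M φ)
        (fun _ => symmDiff Φ {ψ, ComplexEmbedding.conjugate ψ}) := by
  obtain ⟨hd, hMc⟩ := factor_of_admissible hadm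
  have key : ∀ Ψ : Set (E →+* ℂ), IsCMType Ψ → NoRelations M Ψ →
      Law (fun _ : Unit => E) (fun _ => m) (fun _ φ => d * M φ) (fun _ => Ψ) := by
    intro Ψ hΨ hno
    exact law_of_noRelations (pairwiseIndep_unit E) (fun _ => hΨ) (fun _ => hadm)
      fun _ => hno.mul hd
  rw [← flip_eq]
  rcases one_place hMc hp hp2 hdeg hψ hΦ with h | h
  · exact Or.inl (key Φ hΦ h)
  · exact Or.inr (key _ (isCMType_flip ψ hΦ) h)

end Pool.Agent.Q29.EP
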