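import Mathlib
import Pool.Agent.H977R3.CM.Defs
import Pool.Agent.Q29.EP.Defs

/-!
# Properties of slope types for one half of all slope types

In all definitions `Q p ν I K M Φ` is a property of the families of slope types `Φ i` of CM fields
`K i` with the weights `M i`.
-/

set_option autoImplicit false

namespace Pool.Agent.Q29.EP

open NumberField Module Pool.Agent.H204R3.CM Pool.Agent.H977R3.CM

/-- A property of families of slope types. -/
abbrev TypeProperty : Type 1 :=
  ∀ (p : ℕ) (_ : Fact p.Prime) (_ : PadicAlgCl p ≃+* ℂ) (I : Type) (_ : Fintype I) (K : I → Type)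
    (_ : ∀ i, Field (K i)) (_ : ∀ i, NumberField (K i)) (_ : ∀ i, IsCMField (K i))
    (_ : ∀ i, (K i →+* ℂ) → ℤ) (_ : ∀ i, Set (K i →+* ℂ)), Prop

/-- The number field `E` is an abelian extension of `ℚ`. -/
def IsAbelianOverRat (E : Type) [Field E] [NumberField E] : Prop :=
  IsGalois ℚ E ∧ ∀ a b : E ≃ₐ[ℚ] E, a * b = b * a

variable (Q : TypeProperty)

/-- **One half of all slope types.** For pairwise independent CM fields `K i` of degree `2 g i` and
all weights `M i` with `PrimePowerDegree` (`g i` is a power of a prime number `r`; if `r` is odd then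
it does not divide all weights; if `r = 2` then `g i ≥ 8` and the weights are odd), `Q` holds for at
least `2 ^ (∑ g i - number of the fields)` of the `2 ^ (∑ g i)` families of types. -/
def HalfOfAll : Prop :=
  ∀ (p : ℕ) [hp : Fact p.Prime] (ν : PadicAlgCl p ≃+* ℂ) (I : Type) [hI : Fintype I]
    (K : I → Type) [hK : ∀ i, Field (K i)] [hN : ∀ i, NumberField (K i)]
    [hC : ∀ i, IsCMField (K i)]
    (M : ∀ i, (K i →+* ℂ) → ℤ) (g : I → ℕ), PairwiseIndep K →
    (∀ i φ, M i (ComplexEmbedding.conjugate φ) = M i φ) → (∀ i, finrank ℚ (K i) = 2 * g i) →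
    (∀ i, PrimePowerDegree (M i)) →
    2 ^ (∑ i, g i) ≤ 2 ^ Fintype.card I * {Φ : ∀ i, Set (K i →+* ℂ) |
      (∀ i, IsCMType (Φ i)) ∧ Q p hp ν I hI K hK hN hC M Φ}.ncard

/-- **The weights one.** For pairwise independent CM fields `K i` of degree `2 g i`, `g i = r i ^ k i`
with prime numbers `r i` (`g i ≥ 8` if `r i = 2`), and the weights one, `Q` holds for at least
`(∏ (1 - 1 / r i)) 2 ^ (∑ g i)` of the `2 ^ (∑ g i)` families of types. -/
def MostWithWeightsOne : Prop :=
  ∀ (p : ℕ) [hp : Fact p.Prime] (ν : PadicAlgCl p ≃+* ℂ) (I : Type) [hI : Fintype I]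
    (K : I → Type) [hK : ∀ i, Field (K i)] [hN : ∀ i, NumberField (K i)]
    [hC : ∀ i, IsCMField (K i)]
    (r k : I → ℕ), PairwiseIndep K → (∀ i, (r i).Prime) →
    (∀ i, finrank ℚ (K i) = 2 * r i ^ k i) → (∀ i, r i = 2 → 8 ≤ r i ^ k i) →
    (∏ i, (1 - 1 / (r i : ℝ))) * 2 ^ (∑ i, r i ^ k i) ≤
      (({Φ : ∀ i, Set (K i →+* ℂ) | (∀ i, IsCMType (Φ i)) ∧
        Q p hp ν I hI K hK hN hC (fun _ _ => 1) Φ}.ncard : ℕ) : ℝ)

/-- **One of two slope types.** For the fields and weights as in `HalfOfAll` there are sets `B i` of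
embeddings, stable under complex conjugation, such that for every family of types `Φ` the property
`Q` holds for the family changed on the sets `B i` for all `i` in some set `J`. -/
def OneOfTwo : Prop :=
  ∀ (p : ℕ) [hp : Fact p.Prime] (ν : PadicAlgCl p ≃+* ℂ) (I : Type) [hI : Fintype I]
    (K : I → Type) [hK : ∀ i, Field (K i)] [hN : ∀ i, NumberField (K i)]
    [hC : ∀ i, IsCMField (K i)]
    (M : ∀ i, (K i →+* ℂ) → ℤ), PairwiseIndep K →
    (∀ i φ, M i (ComplexEmbedding.conjugate φ) = M i φ) → (∀ i, PrimePowerDegree (M i)) →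
    ∃ B : ∀ i, Set (K i →+* ℂ), (∀ i φ, ComplexEmbedding.conjugate φ ∈ B i ↔ φ ∈ B i) ∧
      ∀ Φ : ∀ i, Set (K i →+* ℂ), (∀ i, IsCMType (Φ i)) →
        ∃ J : Set I, Q p hp ν I hI K hK hN hC M (change B Φ J)

/-- **Abelian fields.** There is a number `g₀` such that for all pairwise independent CM fields
`K i` that are abelian over `ℚ`, of degrees `2 g i ≥ 2 g₀`, and all odd weights `M i`, the property
`Q` holds for a proportion of at least `(4 / 25) ^ (number of the fields)` of the families of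
types. -/
def SixteenPercent : Prop :=
  ∃ g₀ : ℕ, ∀ (p : ℕ) [hp : Fact p.Prime] (ν : PadicAlgCl p ≃+* ℂ) (I : Type) [hI : Fintype I]
    (K : I → Type) [hK : ∀ i, Field (K i)] [hN : ∀ i, NumberField (K i)]
    [hC : ∀ i, IsCMField (K i)] (M : ∀ i, (K i →+* ℂ) → ℤ) (g : I → ℕ), PairwiseIndep K →
    (∀ i, IsAbelianOverRat (K i)) → (∀ i φ, Odd (M i φ)) →
    (∀ i φ, M i (ComplexEmbedding.conjugate φ) = M i φ) → (∀ i, g₀ ≤ g i) →
    (∀ i, finrank ℚ (K i) = 2 * g i) →
    (4 / 25 : ℝ) ^ Fintype.card I * 2 ^ (∑ i, g i) ≤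
      (({Φ : ∀ i, Set (K i →+* ℂ) |
        (∀ i, IsCMType (Φ i)) ∧ Q p hp ν I hI K hK hN hC M Φ}.ncard : ℕ) : ℝ)

end Pool.Agent.Q29.EP
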