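import Mathlib
import Pool.Agent.Y1.KN.Defs
import Pool.Agent.Q29.EP.RowsDefs

/-!
# Properties of almost all slope types
-/

set_option autoImplicit false

namespace Pool.Agent.Q29.EP

open NumberField Module Pool.Agent.H204R3.CM Pool.Agent.H977R3.CM Pool.Agent.Y1.KN

/-- **Almost all slope types.** For pairwise independent CM fields `K i` of degrees `2 g i` and all
weights `M i` whose values divide `n i ≠ 0`, the property `Q` holds for all families of types but at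
most `2 ^ (∑ g i) * ∑ C * n i ^ 2 * rate (K i) (g i) (q i)`; here `q i` is a prime factor of `g i`, or
`q i = 1`. -/
def AlmostAll (Q : TypeProperty) : Prop :=
  ∃ C : ℝ, 0 ≤ C ∧ ∀ (p : ℕ) [hp : Fact p.Prime] (ν : PadicAlgCl p ≃+* ℂ) (I : Type)
    [hI : Fintype I] (K : I → Type) [hK : ∀ i, Field (K i)] [hN : ∀ i, NumberField (K i)]
    [hC : ∀ i, IsCMField (K i)] (M : ∀ i, (K i →+* ℂ) → ℤ) (n g q : I → ℕ), PairwiseIndep K →
    (∀ i φ, M i (ComplexEmbedding.conjugate φ) = M i φ) → (∀ i, n i ≠ 0) →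
    (∀ i φ, M i φ ∣ (n i : ℤ)) → (∀ i, finrank ℚ (K i) = 2 * g i) →
    (∀ i, q i ∣ g i ∧ (q i = 1 ∨ (q i).Prime)) →
    (({Φ : ∀ i, Set (K i →+* ℂ) | (∀ i, IsCMType (Φ i)) ∧
      ¬ Q p hp ν I hI K hK hN hC M Φ}.ncard : ℕ) : ℝ) ≤
      2 ^ (∑ i, g i) * ∑ i, C * (n i : ℝ) ^ 2 * rate (K i) (g i) (q i)

end Pool.Agent.Q29.EP
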