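import Mathlib
import Pool.Agent.Q29.DP.Fam
import Pool.Agent.Q29.DP.Rows
import Pool.Agent.Q29.EP.RowsDefs
import Pool.Agent.Q29.EP.Proportion

/-!
# From types without relations to one half of all slope types
-/

set_option autoImplicit false
set_option linter.unusedSectionVars false

namespace Pool.Agent.Q29.EP

open NumberField Module Finset Pool.Agent.H204R3.CM Pool.Agent.H977R3.CM Pool.Agent.Q29.DP
  Pool.Agent.Q29.OS

/-- `Q` holds for all families of slope types without relations. -/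
def WithoutRelations (Q : TypeProperty) : Prop :=
  ∀ (p : ℕ) [hp : Fact p.Prime] (ν : PadicAlgCl p ≃+* ℂ) (I : Type) [hI : Fintype I]
    (K : I → Type) [hK : ∀ i, Field (K i)] [hN : ∀ i, NumberField (K i)]
    [hC : ∀ i, IsCMField (K i)] (M : ∀ i, (K i →+* ℂ) → ℤ) (Φ : ∀ i, Set (K i →+* ℂ)),
    PairwiseIndep K → (∀ i φ, M i (ComplexEmbedding.conjugate φ) = M i φ) →
    (∀ i, IsCMType (Φ i)) → (∀ i, NoRelations (M i) (Φ i)) → Q p hp ν I hI K hK hN hC M Φ

variable {Q : TypeProperty} (h : WithoutRelations Q)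

include h

theorem halfOfAll : HalfOfAll Q := by
  intro p _ ν I _ K _ _ _ M g hind hMc hg hdeg
  refine le_trans ?_ (Nat.mul_le_mul_left _ (prod_le_fam (M := M) fun Φ hΦ hno =>
    h p ν I K M Φ hind hMc hΦ hno))
  calc 2 ^ (∑ i, g i) = ∏ i, 2 ^ g i := (prod_pow_eq_pow_sum _ _ _).symm
    _ ≤ ∏ i, 2 * {Φ : Set (K i →+* ℂ) | IsCMType Φ ∧ NoRelations (M i) Φ}.ncard :=
      prod_le_prod' fun i _ => half_noRelations (hMc i) (hg i) (hdeg i)
    _ = _ := by rw [prod_mul_distrib, prod_const, card_univ]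

theorem mostWithWeightsOne : MostWithWeightsOne Q := by
  intro p _ ν I _ K _ _ _ ℓ k hind hℓ hdeg h8
  refine le_trans ?_ (Nat.cast_le.2 (prod_le_fam (M := fun _ _ => 1) fun Φ hΦ hno =>
    h p ν I K (fun _ _ => 1) Φ hind (fun _ _ => rfl) hΦ hno))
  rw [Nat.cast_prod]
  calc (∏ i, (1 - 1 / (ℓ i : ℝ))) * 2 ^ (∑ i, ℓ i ^ k i) =
      ∏ i, (1 - 1 / (ℓ i : ℝ)) * 2 ^ (ℓ i ^ k i) := by
        rw [prod_mul_distrib, prod_pow_eq_pow_sum]
    _ ≤ _ := by
      refine prod_le_prod (fun i _ => ?_) fun i _ => proportion (hℓ i) (hdeg i) (h8 i)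
      have h1 : (1 : ℝ) ≤ ℓ i := by exact_mod_cast (hℓ i).one_lt.le
      have h2 : 1 / (ℓ i : ℝ) ≤ 1 := by
        rw [div_le_one (by linarith)]
        exact h1
      have h3 : (0 : ℝ) ≤ 1 - 1 / (ℓ i : ℝ) := by linarith
      positivity

theorem oneOfTwo : OneOfTwo Q := by
  classical
  intro p _ ν I _ K _ _ _ M hind hMc hdeg
  choose B hB hmain using fun i => exists_change (hMc i) (hdeg i)
  refine ⟨B, hB, fun Φ hΦ => ⟨{i | ¬ NoRelations (M i) (Φ i)}, ?_⟩⟩
  refine h p ν I K M _ hind hMc (fun i => ?_) fun i => ?_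
  · unfold change
    split_ifs
    · exact isCMType_symmDiff (hB i) (hΦ i)
    · exact hΦ i
  · unfold change
    split_ifs with h1
    · exact (hmain i (Φ i) (hΦ i)).resolve_left h1
    · exact not_not.1 h1

theorem sixteenPercent : SixteenPercent Q := by
  obtain ⟨g₀, h1⟩ := fam_abelian
  refine ⟨g₀, ?_⟩
  intro p _ ν I _ K _ _ _ M g hind hab hM hMc hg0 hg
  have : ∀ i, IsGalois ℚ (K i) := fun i => (hab i).1
  exact h1 I K M g _ (fun i => (hab i).2) hM hMc hg0 hg fun Φ hΦ hno =>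
    h p ν I K M Φ hind hMc hΦ hno

end Pool.Agent.Q29.EP
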