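import Mathlib
import Pool.Agent.Q29.EP.Rows
import Pool.Agent.Q29.EP.AlmostDefs
import Pool.Agent.Q29.DP.RowsCT

/-!
# Almost all slope types, and Weil numbers whose slope types have no relations
-/

set_option autoImplicit false
set_option linter.unusedSectionVars false

namespace Pool.Agent.Q29.EP

open NumberField Module Polynomial Pool.Agent.H204R3.CM Pool.Agent.H977R3.CM Pool.Agent.Y1.CT
  Pool.Agent.Y1.KN Pool.Agent.Q29.DP Pool.Agent.Q29.OS

theorem almostAll {Q : TypeProperty} (h : WithoutRelations Q) : AlmostAll Q := by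
  obtain ⟨C, hC0, h1⟩ := fam_almostAll
  refine ⟨C, hC0, ?_⟩
  intro p _ ν I _ K _ _ _ M n g q hind hMc hn hMn hg hq
  exact h1 I K M n g q _ hMc hn hMn hg hq fun Φ hΦ hno => h p ν I K M Φ hind hMc hΦ hno

end Pool.Agent.Q29.EP
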